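import Pool.Agent.P.MP_08fd93_co.FU.TP2

/-! The disc theorem with two strict edges in a cell: the induction; lemmas TY and K1. -/

set_option autoImplicit false

namespace Pool.Agent.P.MP_08fd93_co.FU

open OV OV.PkIndP

variable {W : Type} {H : SimpleGraph W}

/-- `d'` is the part of `d` before the rung `u0 v0`. -/
structure CutL (H : SimpleGraph W) (d d' : DD W) (u0 v0 : W) : Prop where
  xy : ∀ x ∈ d.X, x ∉ d.Y
  hu : u0 ∈ d.X
  hv : v0 ∈ d.Y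
  uv : H.Adj u0 v0
  eX : ∀ x, x ∈ d'.X ↔ x ∈ d.X ∧ d.ρ x ≤ d.ρ u0
  eY : ∀ x, x ∈ d'.Y ↔ x ∈ d.Y ∧ d.ρ x ≤ d.ρ v0
  eρ : d'.ρ = d.ρ
  eI : d'.I ⊆ d.I
  cr : ∀ u ∈ d.X, ∀ v ∈ d.Y, H.Adj u v →
    (d.ρ u ≤ d.ρ u0 ∧ d.ρ v ≤ d.ρ v0) ∨ (d.ρ u0 ≤ d.ρ u ∧ d.ρ v0 ≤ d.ρ v)
  inj : ∀ v ∈ d.Y, d.ρ v = d.ρ v0 → v = v0
  inj' : ∀ u ∈ d.X, d.ρ u = d.ρ u0 → u = u0

theorem CutL.swap {d d' : DD W} {u0 v0 : W} (h : CutL H d d' u0 v0) :
    CutL H d.swap d'.swap v0 u0 :=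
  ⟨fun x hx k => h.xy x k hx, h.hv, h.hu, h.uv.symm, h.eY, h.eX, h.eρ,
    by rw [DD.swap_I, DD.swap_I]; exact h.eI,
    fun u hu v hv a => (h.cr v hv u hu a.symm).imp And.symm And.symm, h.inj', h.inj⟩

theorem CutL.pr {d d' : DD W} {u0 v0 : W} (h : CutL H d d' u0 v0) {e e' : Sym2 W}
    (hn : ∃ p ∈ e, ∃ q ∈ e, d.ρ p < d.ρ q)
    (hin : ∀ x, x ∈ e ∨ x ∈ e' → x ∈ d'.X ∨ x ∈ d'.Y) (k : Pr H d e e') : Pr H d' e e' := by
  have inX : ∀ x, x ∈ e ∨ x ∈ e' → x ∈ d.X → x ∈ d'.X := fun x hx m =>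
    (hin x hx).resolve_right fun r => h.xy x m ((h.eY x).1 r).1
  have inY : ∀ x, x ∈ e ∨ x ∈ e' → x ∈ d.Y → x ∈ d'.Y := fun x hx m =>
    (hin x hx).resolve_left fun r => h.xy x ((h.eX x).1 r).1 m
  have top : ∀ f f' : Sym2 W, (∀ x, x ∈ f ∨ x ∈ f' → x ∈ e ∨ x ∈ e') → Top H d f f' →
      Top H d' f f' := by
    rintro f f' sub ⟨u, hu, u', hu', v, hv, v', hv', a, a', l, rfl, k, hz⟩
    have m1 := inX u (sub u (Or.inl (Sym2.mem_mk_left _ _))) hu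
    have m2 := inX u' (sub u' (Or.inl (Sym2.mem_mk_right _ _))) hu'
    have l2 := ((h.eX u').1 m2).2
    have c1 := h.cr u hu v hv a
    have c2 := h.cr u' hu' v' hv' a'
    have m3 : v ∈ d'.Y := (h.eY v).2 ⟨hv, by omega⟩
    have hz' : ∀ z ∈ d'.I, H.Adj z u → H.Adj z u' → ∀ q ∈ d'.Y, ∀ q' ∈ d'.Y, H.Adj z q →
        H.Adj z q' → ¬ ∀ x ∈ f', d'.ρ q ≤ d'.ρ x ∧ d'.ρ x ≤ d'.ρ q' := by
      intro z hz0 b b' q hq q' hq' g g'
      rw [h.eρ]
      exact hz z (h.eI hz0) b b' q ((h.eY q).1 hq).1 q' ((h.eY q').1 hq').1 g g'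
    by_cases c3 : d.ρ v' ≤ d.ρ v0
    · refine ⟨u, m1, u', m2, v, m3, v', (h.eY v').2 ⟨hv', c3⟩, a, a', by rwa [h.eρ], rfl,
        fun x hx => ?_, hz'⟩
      rw [h.eρ]
      exact ⟨inY x (sub x (Or.inr hx)) (k x hx).1, (k x hx).2⟩
    · have e1 : u' = u0 := h.inj' u' hu' (by omega)
      refine ⟨u, m1, u', m2, v, m3, v0, (h.eY v0).2 ⟨h.hv, le_rfl⟩, a, e1 ▸ h.uv,
        by rwa [h.eρ], rfl, fun x hx => ?_, hz'⟩
      rw [h.eρ]
      have m4 := inY x (sub x (Or.inr hx)) (k x hx).1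
      exact ⟨m4, (k x hx).2.1, ((h.eY x).1 m4).2⟩
  rcases k with ⟨u, hu, u', hu', y, hy, a, a', k⟩ | k | k
  · left
    obtain ⟨p, hp, q, hq, l⟩ := hn
    have k1 := k p (Or.inl hp)
    have k2 := k q (Or.inl hq)
    have k3 := ((h.eX q).1 (inX q (Or.inl hq) k2.1)).2
    have c1 := h.cr u hu y hy a
    have c2 := h.cr u' hu' y hy a'
    have m1 : u ∈ d'.X := (h.eX u).2 ⟨hu, by omega⟩
    have m2 : y ∈ d'.Y := (h.eY y).2 ⟨hy, by omega⟩
    by_cases c3 : d.ρ u' ≤ d.ρ u0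
    · refine ⟨u, m1, u', (h.eX u').2 ⟨hu', c3⟩, y, m2, a, a', fun x hx => ?_⟩
      rw [h.eρ]
      exact ⟨inX x hx (k x hx).1, (k x hx).2⟩
    · have e1 : y = v0 := h.inj y hy (by omega)
      refine ⟨u, m1, u0, (h.eX u0).2 ⟨h.hu, le_rfl⟩, y, m2, a, e1 ▸ h.uv, fun x hx => ?_⟩
      rw [h.eρ]
      have m4 := inX x hx (k x hx).1
      exact ⟨m4, (k x hx).2.1, ((h.eX x).1 m4).2⟩
  · exact Or.inr (Or.inl (top e e' (fun _ => id) k))
  · exact Or.inr (Or.inr (top e' e (fun _ => Or.symm) k))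

theorem pr_rv {d : DD W} {e e' : Sym2 W} (k : Pr H d e e') : Pr H (rvD d) e e' := by
  have top : ∀ f f' : Sym2 W, Top H d f f' → Top H (rvD d) f f' := by
    rintro f f' ⟨u, hu, u', hu', v, hv, v', hv', a, a', l, rfl, k, hz⟩
    refine ⟨u', hu', u, hu, v', hv', v, hv, a', a, by change 0 - _ < 0 - _; omega, Sym2.eq_swap,
      fun x hx => ?_, fun z hz0 b b' q hq q' hq' g g' m => ?_⟩
    · obtain ⟨k1, k2, k3⟩ := k x hx
      exact ⟨k1, by change 0 - _ ≤ 0 - _; omega, by change 0 - _ ≤ 0 - _; omega⟩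
    · refine hz z hz0 b' b q' hq' q hq g' g fun x hx => ?_
      have m1 : 0 - d.ρ q ≤ 0 - d.ρ x ∧ 0 - d.ρ x ≤ 0 - d.ρ q' := m x hx
      omega
  rcases k with ⟨u, hu, u', hu', y, hy, a, a', k⟩ | k | k
  · refine Or.inl ⟨u', hu', u, hu, y, hy, a', a, fun x hx => ?_⟩
    obtain ⟨k1, k2, k3⟩ := k x hx
    exact ⟨k1, by change 0 - _ ≤ 0 - _; omega, by change 0 - _ ≤ 0 - _; omega⟩
  · exact Or.inr (Or.inl (top _ _ k))
  · exact Or.inr (Or.inr (top _ _ k))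

theorem rv_rv (d : DD W) : rvD (rvD d) = d := by
  cases d
  simp [rvD]

theorem pr_rv' {d : DD W} {e e' : Sym2 W} (k : Pr H (rvD d) e e') : Pr H d e e' := by
  have := pr_rv k
  rwa [rv_rv] at this

theorem spl_cr {d : DD W} {u v : W} {IL IR : Set W} (P : Spl H d u v IL IR) :
    ∀ u1 ∈ d.X, ∀ v1 ∈ d.Y, H.Adj u1 v1 →
      (d.ρ u1 ≤ d.ρ u ∧ d.ρ v1 ≤ d.ρ v) ∨ (d.ρ u ≤ d.ρ u1 ∧ d.ρ v ≤ d.ρ v1) := by
  intro u1 hu1 v1 hv1 e
  have a1 : ¬ (d.ρ u1 < d.ρ u ∧ d.ρ v < d.ρ v1) := fun hh =>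
    P.nc u1 (Or.inl ⟨hu1, hh.1⟩) v1 (Or.inr ⟨hv1, hh.2⟩) e
  have a2 : ¬ (d.ρ v1 < d.ρ v ∧ d.ρ u < d.ρ u1) := fun hh =>
    P.nc v1 (Or.inr ⟨hv1, hh.1⟩) u1 (Or.inl ⟨hu1, hh.2⟩) e.symm
  omega

theorem sub_I {d d' : DD W} {C I' : Set W} (hZ : d'.Z = (C ∪ I')ᶜ)
    (hC : ∀ x ∈ C, x ∈ d'.X ∨ x ∈ d'.Y) (hI : ∀ x ∈ I', x ∈ d.I) : d'.I ⊆ d.I := by
  intro x hx
  obtain ⟨h1, h2, h3⟩ := DD.mem_I.1 hx
  rw [hZ, Set.mem_compl_iff, not_not] at h1
  rcases h1 with k | k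
  exacts [((hC x k).elim h2 h3).elim, hI x k]

theorem spl_cutL {d : DD W} {u v : W} {IL IR : Set W} (P : Spl H d u v IL IR) :
    CutL H d (d.left u v IL) u v :=
  ⟨fun _ hx => P.disc.xy hx, P.hu, P.hv, P.uv, fun _ => Iff.rfl, fun _ => Iff.rfl, rfl,
    sub_I (C := d.Lf u v) (I' := IL) rfl (fun _ hx => hx) fun x hx => (P.cov x).2 (Or.inl hx),
    spl_cr P, fun w hw e => P.disc.py.inj w hw v P.hv e, fun w hw e => P.disc.px.inj w hw u P.hu e⟩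

theorem spl_cutR {d : DD W} {u v : W} {IL IR : Set W} (P : Spl H d u v IL IR) :
    CutL H (rvD d) (rvD (d.right u v IR)) u v := by
  refine ⟨fun _ hx => P.disc.xy hx, P.hu, P.hv, P.uv, fun x => and_congr_right fun _ => ?_,
    fun x => and_congr_right fun _ => ?_, rfl,
    sub_I (d := d) (d' := d.right u v IR) (C := d.Rt u v) (I' := IR) rfl (fun _ hx => hx)
      fun x hx => (P.cov x).2 (Or.inr hx), fun u1 hu1 v1 hv1 e => ?_,
    fun w hw e => P.disc.py.inj w hw v P.hv ?_, fun w hw e => P.disc.px.inj w hw u P.hu ?_⟩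
  · change _ ↔ 0 - d.ρ x ≤ 0 - d.ρ u
    omega
  · change _ ↔ 0 - d.ρ x ≤ 0 - d.ρ v
    omega
  · have := spl_cr P u1 hu1 v1 hv1 e
    change (0 - d.ρ u1 ≤ 0 - d.ρ u ∧ 0 - d.ρ v1 ≤ 0 - d.ρ v) ∨
      (0 - d.ρ u ≤ 0 - d.ρ u1 ∧ 0 - d.ρ v ≤ 0 - d.ρ v1)
    omega
  · have : 0 - d.ρ w = 0 - d.ρ v := e
    omega
  · have : 0 - d.ρ w = 0 - d.ρ u := e
    omega

theorem nondeg {d : DD W} (D : Disc H d) {e : Sym2 W} (he : e ∈ PE H d.X ∪ PE H d.Y) :
    ∃ p ∈ e, ∃ q ∈ e, d.ρ p < d.ρ q := by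
  rcases he with he | he
  · obtain ⟨p, -, q, -, -, l, rfl⟩ := pe_ord D.px he
    exact ⟨p, Sym2.mem_mk_left _ _, q, Sym2.mem_mk_right _ _, l⟩
  · obtain ⟨p, -, q, -, -, l, rfl⟩ := pe_ord D.py he
    exact ⟨p, Sym2.mem_mk_left _ _, q, Sym2.mem_mk_right _ _, l⟩

theorem adm_pair {d : DD W} {e e' : Sym2 W} (he : e ∈ PE H d.X ∪ PE H d.Y)
    (he' : e' ∈ PE H d.X ∪ PE H d.Y) (h : SS H d e e') : Adm H d {e, e'} := by
  refine ⟨?_, ?_⟩
  · rintro _ (rfl | rfl)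
    exacts [he, he']
  · rintro _ (rfl | rfl) _ (rfl | rfl) hne
    · exact absurd rfl hne
    · exact h
    · exact h.symm
    · exact absurd rfl hne

/-- admissibility passes to a part -/
theorem admP_part {d d' : DD W} {S : Set (Sym2 W)} {C : Set W} (A : AdmP H d S)
    (hA : ∀ S, Adm H d S → Adm H d' (SIn S C))
    (h1 : ∀ e ∈ SIn S C, ∀ e' ∈ SIn S C, Pr H d e e' → Pr H d' e e')
    (h2 : ∀ e ∈ SIn S C, ∀ e' ∈ SIn S C, Pr H d.swap e e' → Pr H d'.swap e e') :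
    AdmP H d' (SIn S C) := by
  have ss : ∀ e ∈ SIn S C, ∀ e' ∈ SIn S C, e ≠ e' → SS H d e e' → SS H d' e e' :=
    fun e he e' he' hne k => (hA _ (adm_pair (A.sub he.1) (A.sub he'.1) k)).2 e
      ⟨Or.inl rfl, he.2⟩ e' ⟨Or.inr rfl, he'.2⟩ hne
  refine ⟨fun e he => (hA _ (Adm.single (A.sub he.1))).1 ⟨rfl, he.2⟩, fun e he e' he' hne => ?_,
    fun e1 k1 e2 k2 e3 k3 n1 n2 n3 => ?_⟩
  · exact (A.two e he.1 e' he'.1 hne).imp (ss e he e' he' hne)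
      (Or.imp (h1 e he e' he') (h2 e he e' he'))
  · exact (A.three e1 k1.1 e2 k2.1 e3 k3.1 n1 n2 n3).imp (ss e1 k1 e2 k2 n1)
      (Or.imp (ss e1 k1 e3 k3 n2) (ss e2 k2 e3 k3 n3))

/-- The disc theorem with at most two strict edges in a cell. -/
theorem tp (hP : Pl H Set.univ) (T : TA H) {d : DD W} {S : Set (Sym2 W)} (D : Disc H d)
    (A : AdmP H d S) : ∃ o, Out H d S o := by
  have all : ∀ n, TPN H n := by
    intro n
    induction n with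
    | zero => intro d S _ _ k; exact absurd k (Nat.not_lt_zero _)
    | succ n ihn =>
      intro d S D A k
      have ih : TPN H (d.Zᶜ).ncard := fun d' S' D' A' k' => ihn d' S' D' A' (by omega)
      rcases d.I.eq_empty_or_nonempty with hI | hI
      · exact ⟨_, Out.triv D A.sub hI⟩
      by_cases N : NR H d
      · have sep : ∀ e ∈ S, ∀ e' ∈ S, ¬ Sep H d e e' := by
          rintro e he e' he' ⟨u, hu, v, hv, a, h1, h2⟩
          rcases N u hu v hv a with ⟨rfl, rfl⟩ | ⟨rfl, rfl⟩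
          · exact lf_edge D (A.sub he) h1
          · exact rt_edge D (A.sub he') h2
        have ss : ∀ e ∈ S, ∀ e' ∈ S, ¬ SS H d e e' := fun e he e' he' k =>
          k.elim (sep e he e' he') (sep e' he' e he)
        by_cases h2 : ∃ e ∈ S, ∃ e' ∈ S, e ≠ e'
        · obtain ⟨e, he, e', he', hne⟩ := h2
          have hS : S ⊆ {e, e'} := by
            intro f hf
            by_contra hc
            simp only [Set.mem_insert_iff, Set.mem_singleton_iff, not_or] at hc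
            rcases A.three e he e' he' f hf hne (Ne.symm hc.1) (Ne.symm hc.2) with q | q | q
            exacts [ss _ he _ he' q, ss _ he _ hf q, ss _ he' _ hf q]
          rcases (A.two e he e' he' hne).resolve_left (ss e he e' he') with q | q
          · obtain ⟨o, O⟩ := pr_nr hP T D hI N ih (A.sub he) (A.sub he') q
            exact ⟨o, O.mono hS⟩
          · obtain ⟨o, O⟩ := pr_nr hP T D.swap (by rw [DD.swap_I]; exact hI) N.swap ih
              (A.sub he).symm (A.sub he').symm q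
            exact ⟨o.swap, Out.mono (d := d) O.swap hS⟩
        · exact T d S D ⟨A.sub, fun e he e' he' hne => absurd ⟨e, he, e', he', hne⟩ h2⟩
      · simp only [NR, not_forall, not_or] at N
        obtain ⟨u, hu, v, hv, a, n1, n2⟩ := N
        obtain ⟨IL, IR, P, hA⟩ := pk_Spl1 W H hP d u v D hu hv a
        have aL : AdmP H (d.left u v IL) (SIn S (d.Lf u v)) :=
          admP_part A (fun S k => (hA S k).1)
            (fun e he e' he' => (spl_cutL P).pr (nondeg D (A.sub he.1))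
              fun x hx => hx.elim (he.2 x) (he'.2 x))
            fun e he e' he' => (spl_cutL P).swap.pr (nondeg D (A.sub he.1))
              fun x hx => (hx.elim (he.2 x) (he'.2 x)).symm
        have aR : AdmP H (d.right u v IR) (SIn S (d.Rt u v)) :=
          admP_part A (fun S k => (hA S k).2)
            (fun e he e' he' q => pr_rv' ((spl_cutR P).pr (nondeg (disc_rv D) (A.sub he.1))
              (fun x hx => hx.elim (he.2 x) (he'.2 x)) (pr_rv q)))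
            fun e he e' he' q => pr_rv' ((spl_cutR P).swap.pr (nondeg (disc_rv D) (A.sub he.1))
              (fun x hx => (hx.elim (he.2 x) (he'.2 x)).symm) (pr_rv q))
        obtain ⟨oL, OL⟩ := ih _ _ P.dl aL (left_lt P n2)
        obtain ⟨oR, OR⟩ := ih _ _ P.dr aR (right_lt P n1)
        exact ⟨_, pk_Spl3 W H d u v IL IR S oL oR P OL OR
          (pk_Spl2 W H d u v IL IR S oL oR P A.sub OL.shp OR.shp)⟩
  exact all _ d S D A (Nat.lt_succ_self _)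

/-- Lemma TY: the second path is one vertex; two edges of the first path are strict. -/
theorem ty (hP : Pl H Set.univ) (T : TA H) {d : DD W} (D : Disc H d) (hY : d.a' = d.b')
    {e e' : Sym2 W} (he : e ∈ PE H d.X) (he' : e' ∈ PE H d.X) : ∃ o, Out H d {e, e'} o :=
  tp hP T D (admP_pair (Or.inl he) (Or.inl he') (Or.inr (Or.inl (Or.inl
    ⟨d.a, D.px.ha, d.b, D.px.hb, d.a', D.py.ha, D.ra, hY ▸ D.rb, fun x hx => by
      have k : x ∈ d.X := hx.elim (PE.ends he) (PE.ends he')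
      exact ⟨k, D.px.lo x k, D.px.hi x k⟩⟩))))

/-- Lemma K1: the first path is an edge; it is strict together with an edge `e` of the second
path unless an interior common neighbour of its ends sees the second path on both sides of `e`. -/
theorem k1 (hP : Pl H Set.univ) (T : TA H) {d : DD W} (D : Disc H d) (ab : H.Adj d.a d.b)
    {e : Sym2 W} (he : e ∈ PE H d.Y)
    (hz : ∀ z ∈ d.I, H.Adj z d.a → H.Adj z d.b → ∀ q ∈ d.Y, ∀ q' ∈ d.Y, H.Adj z q → H.Adj z q' →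
      ¬ ∀ x ∈ e, d.ρ q ≤ d.ρ x ∧ d.ρ x ≤ d.ρ q') : ∃ o, Out H d {s(d.a, d.b), e} o :=
  tp hP T D (admP_pair (Or.inl (mem_PE.2 ⟨D.px.ha, D.px.hb, ab⟩)) (Or.inr he)
    (Or.inr (Or.inl (Or.inr (Or.inl ⟨d.a, D.px.ha, d.b, D.px.hb, d.a', D.py.ha, d.b', D.py.hb,
      D.ra, D.rb, D.px.lt_hi D.px.ha ab.ne, rfl, fun x hx => by
        have k : x ∈ d.Y := PE.ends he hx
        exact ⟨k, D.py.lo x k, D.py.hi x k⟩, hz⟩)))))

end Pool.Agent.P.MP_08fd93_co.FU
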