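import Pool.Agent.P.MP_08fd93_co.FU.TP3

/-! The main step with a prescribed apex. -/

set_option autoImplicit false

namespace Pool.Agent.P.MP_08fd93_co.FU

open OV

variable {W : Type} {H : SimpleGraph W}

open B52 in
theorem stp_z (hP : Pl H Set.univ) {d : DD W} (h : Disc H d) {p p' z : W} (hp : p ∈ d.X)
    (hp' : p' ∈ d.X) (lt : d.ρ p < d.ρ p') (pp : H.Adj p p') (hz : z ∈ d.I) (a1 : H.Adj z p)
    (a2 : H.Adj z p') : ∃ s : SD W, s.d = d ∧ s.p = p ∧ s.p' = p' ∧ s.z = z ∧ Stp H s := by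
  set XL : Set W := {x | x ∈ d.X ∧ d.ρ x ≤ d.ρ p} with hXL
  set XM : Set W := {x | x ∈ d.X ∧ d.ρ p' ≤ d.ρ x} with hXM
  have sub : ∀ w, w ∈ d.I ∨ w ∈ d.Y → w ∈ ((d.Z ∪ XM) ∪ XL)ᶜ := by
    rintro w (hw | hw) ((hh | hh) | hh)
    · exact (memI.1 hw).1 hh
    · exact (memI.1 hw).2.1 hh.1
    · exact (memI.1 hw).2.1 hh.1
    · exact yZ h hw hh
    · exact xY h hh.1 hw
    · exact xY h hh.1 hw
  obtain ⟨y, cy, q, hq, aq⟩ := (h.both hP hz).2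
  have c := B52.tim hP (A := d.Z ∪ XM) (B := XL)
    (by
      rw [Set.disjoint_right]
      rintro w hw (hh | hh)
      · exact xZ h hw.1 hh
      · have := hw.2
        have := hh.2
        omega)
    (isc_nb h.zc fun _ hx => h.tz (Or.inl hx.1))
    (pconv h.px (fun _ hx => hx.1) fun _ _ _ hw _ hx _ h2 => ⟨hx, h2.trans hw.2⟩)
    (Or.inl (h.px.fin.subset fun _ hx => hx.1)) ⟨p, ⟨hp, le_rfl⟩, a1⟩
    ⟨d.a, ⟨h.px.ha, h.px.lo _ hp⟩, h.ra.symm⟩ (sub z (Or.inl hz))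
    (ctrans (cmono (fun w hw => sub w (Or.inl hw)) cy)
      (ctrans (cone (sub _ (Or.inl (cmem cy hz))) (sub _ (Or.inr hq)) aq)
        (cmono (fun w hw => sub w (Or.inr hw)) (pconn h.py _ hq _ h.py.ha))))
  obtain ⟨x, y', cx, hx, hy', hy'', axy⟩ := cexit (R := d.I) c hz
    (fun hh => (memI.1 hh).2.2 h.py.ha)
  have hY : y' ∈ d.Y := by
    rcases nbI h hx axy with e | e | e
    · exact absurd e hy''
    · exfalso
      rcases (h.px.adj _ hp _ hp' lt).1 pp y' e with e' | e'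
      · exact hy'.2 (Or.inr ⟨e, e'⟩)
      · exact hy'.2 (Or.inl (Or.inr ⟨e, e'⟩))
    · exact e
  obtain ⟨τ, σ, v, hτ, hs, hv, hu⟩ := exists_pth (B := Nb H d.Y) cx
    ⟨⟨⟨p, ⟨hp, le_rfl⟩, a1⟩, sub z (Or.inl hz)⟩, hz⟩ ⟨y', hY, axy⟩
  have fin : {y | y ∈ d.Y ∧ H.Adj v y}.Finite := h.py.fin.subset fun _ hy => hy.1
  obtain ⟨ql, hl, hmin⟩ := Set.exists_min_image _ d.ρ fin hv
  obtain ⟨qj, hj, hmax⟩ := Set.exists_max_image _ d.ρ fin hv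
  refine ⟨⟨d, p, p', z, v, ql, qj, τ, σ, fun _ => 0⟩, rfl, rfl, rfl, rfl,
    h, hp, hp', lt, pp, hτ, fun t ht => (hs ht).2, a1, a2, ?_, ?_, hl.1, hj.1, hl.2, hj.2⟩
  · intro t ht
    obtain ⟨x, hx, a⟩ := (hs ht).1.1
    exact ⟨x, hx.1, hx.2, a⟩
  · intro t ht y hy a
    have e : t = v := hu t ht ⟨y, hy, a⟩
    subst e
    exact ⟨rfl, hmin y ⟨hy, a⟩, hmax y ⟨hy, a⟩⟩

/-- The geometry of the main step for a prescribed interior common neighbour `z` of `p`, `p'`;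
inner rungs are allowed. -/
theorem step_z (hP : Pl H Set.univ) {d : DD W} (h : Disc H d) {p p' z : W} (hp : p ∈ d.X)
    (hp' : p' ∈ d.X) (lt : d.ρ p < d.ρ p') (pp : H.Adj p p') (hz : z ∈ d.I) (a1 : H.Adj z p)
    (a2 : H.Adj z p') : ∃ s : SD W, s.d = d ∧ s.p = p ∧ s.p' = p' ∧ s.z = z ∧ Stp H s ∧ Reg H s ∧
      Disc H s.dM ∧ (s.dM.Zᶜ).ncard < (s.d.Zᶜ).ncard := by
  obtain ⟨s0, e1, e2, e3, e4, P0⟩ := stp_z hP h hp hp' lt pp hz a1 a2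
  have P : Stp H (PkStp2P.sl H s0) := ⟨P0.disc, P0.hp, P0.hp', P0.lt, P0.pp, P0.pt, P0.ti, P0.zp,
    P0.zp', P0.tn, P0.ty, P0.hl, P0.hj, P0.vl, P0.vj⟩
  have R := PkStp2P.reg hP P0
  obtain ⟨dm, -, cm⟩ := pk_Stp3 W H _ P R
  exact ⟨PkStp2P.sl H s0, e1, e2, e3, e4, P, R, dm, cm⟩

end Pool.Agent.P.MP_08fd93_co.FU
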