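import Pool.Agent.P.MP_08fd93_co.FU.G6
import Pool.Agent.P.MP_08fd93_co.OV.PkStp1
import Pool.Agent.P.MP_08fd93_co.OV.PkStp2
import Pool.Agent.P.MP_08fd93_co.OV.PkStp3
import Pool.Agent.P.MP_08fd93_co.OV.PkTri1
import Pool.Agent.P.MP_08fd93_co.OV.PkTri2
import Pool.Agent.P.MP_08fd93_co.OV.PkInd

/-! Reversal of a disc, the packaged general main step, and the lemma TY without inner rungs. -/

set_option autoImplicit false

namespace Pool.Agent.P.MP_08fd93_co.FU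

open OV OV.PkIndP

variable {W : Type} {H : SimpleGraph W}

/-- The disc with both paths reversed. -/
def rvD (d : DD W) : DD W := ⟨d.Z, d.X, d.Y, fun x => 0 - d.ρ x, d.b, d.a, d.b', d.a'⟩

/-- The output with both paths reversed. -/
def rvO (o : OD W) : OD W := ⟨o.Z, o.X, o.Y, fun x => 0 - o.ρ x, o.ax⟩

theorem disc_rv {d : DD W} (h : Disc H d) : Disc H (rvD d) :=
  ⟨h.px.rev 0, h.py.rev 0, h.dxy, h.rb, h.ra, h.zc, h.dz, h.cl, h.tz, h.fin, h.nj⟩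

theorem nr_rv {d : DD W} (h : NR H d) : NR H (rvD d) := fun u hu v hv a => (h u hu v hv a).symm

theorem out_rv {d : DD W} {S : Set (Sym2 W)} {o : OD W} (h : Out H (rvD d) S o) :
    Out H d S (rvO o) := by
  have D : Disc H (rvD ((rvD d).upd o)) := disc_rv h.shp.disc
  refine ⟨⟨D, h.shp.zz, h.shp.xx, h.shp.yy, fun u hu hu' => ?_, fun u hu hu' => ?_, h.shp.nx,
    h.shp.ny, h.shp.ap, h.shp.pk, h.shp.st⟩, h.ext⟩
  · have : o.ρ u = 0 - d.ρ u := h.shp.rx u hu hu'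
    change 0 - o.ρ u = d.ρ u
    omega
  · have : o.ρ u = 0 - d.ρ u := h.shp.ry u hu hu'
    change 0 - o.ρ u = d.ρ u
    omega

/-- The geometry of the main step. -/
theorem step_ex (hP : Pl H Set.univ) {d : DD W} (D : Disc H d) (hI : d.I.Nonempty) (N : NR H d)
    {p p' : W} (hp : p ∈ d.X) (hp' : p' ∈ d.X) (lt : d.ρ p < d.ρ p') (a : H.Adj p p') :
    ∃ s : SD W, s.d = d ∧ s.p = p ∧ s.p' = p' ∧ Stp H s ∧ Reg H s ∧ Disc H s.dM ∧
      (s.dM.Zᶜ).ncard < (s.d.Zᶜ).ncard := by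
  obtain ⟨s0, e1, e2, e3, P0⟩ := pk_Stp1 W H hP d p p' D hI N hp hp' lt a
  obtain ⟨s, f1, f2, f3, P, R⟩ := pk_Stp2 W H hP s0 P0
  obtain ⟨dm, -, cm⟩ := pk_Stp3 W H s P R
  exact ⟨s, f1.trans e1, f2.trans e2, f3.trans e3, P, R, dm, cm⟩

/-- The general main step: the right disc is solved with `S1`, the left disc with `S2`. -/
theorem step_gen (hP : Pl H Set.univ) (T : TA H) {s : SD W} {o1 o2 : OD W} {u : W}
    {S S1 S2 : Set (Sym2 W)} (A : PA H s o1 u) (O1 : Out H s.dM S1 o1)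
    (O2 : Out H (s.dL o1) S2 o2) (h1 : s.ql ≠ s.qj → s(s.v, s.qj) ∈ S1) (h2 : s.SL H o1 ⊆ S2)
    (hS : ∀ e ∈ S, e = s(s.p, s.p') ∨ ((e ∈ S1 ∨ e ∈ S2) ∧ e ∈ PE H s.d.X ∪ PE H s.d.Y)) :
    Out H s.d S (s.fin H o1 o2) := by
  have G : PG H s o1 o2 u := ⟨A, (A.dl hP).1, O2.shp.mono h2⟩
  obtain ⟨r2, r3⟩ := pk_Tri2 W H s A.stp A.reg (pk_Tri1 W H hP _ (T.tn _))
  exact G.out O1 O2 h1 h2 hS r2 r3

/-- The general main step with the standard left disc. -/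
theorem step_std (hP : Pl H Set.univ) (T : TA H) {s : SD W} {o1 : OD W} {u : W}
    {S S1 : Set (Sym2 W)} (A : PA H s o1 u) (O1 : Out H s.dM S1 o1)
    (h1 : s.ql ≠ s.qj → s(s.v, s.qj) ∈ S1)
    (hS : ∀ e ∈ S, e = s(s.p, s.p') ∨ (e ∈ S1 ∧ e ∈ PE H s.d.X ∪ PE H s.d.Y)) :
    ∃ o, Out H s.d S o := by
  obtain ⟨o2, O2⟩ := T _ _ (A.dl hP).1 A.admL
  exact ⟨_, step_gen hP T A O1 O2 h1 subset_rfl fun e he =>
    (hS e he).imp_right fun k => ⟨Or.inl k.1, k.2⟩⟩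

/-- Lemma TY without inner rungs, edges in order. -/
theorem ty_ord (hP : Pl H Set.univ) (T : TA H) {d : DD W} (D : Disc H d) (hI : d.I.Nonempty)
    (N : NR H d) (hY : d.a' = d.b') {p p' r r' : W} (hp : p ∈ d.X) (hp' : p' ∈ d.X)
    (hr : r ∈ d.X) (hr' : r' ∈ d.X) (a : H.Adj p p') (a' : H.Adj r r') (l1 : d.ρ p < d.ρ p')
    (l2 : d.ρ p' ≤ d.ρ r) (l3 : d.ρ r < d.ρ r') : ∃ o, Out H d {s(p, p'), s(r, r')} o := by
  obtain ⟨s, rfl, rfl, rfl, P, R, dm, -⟩ := step_ex hP D hI N hp hp' l1 a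
  have e1 : s.d.Y = {s.d.b'} := Pth.eq_single (ρ := s.d.ρ) (by have := D.py; rwa [hY] at this)
  have el : s.ql = s.d.b' := by simpa [e1] using P.hl
  have ej : s.qj = s.d.b' := by simpa [e1] using P.hj
  obtain ⟨o1, O1⟩ := T s.dM {s(r, r')} dm
    (Adm.single (Or.inl (mem_PE.2 ⟨⟨hr, l2⟩, ⟨hr', by omega⟩, a'⟩)))
  obtain ⟨u, A⟩ := pa_of_eq P R dm O1.shp (ej ▸ O1.shp.py.hb) (el.trans ej.symm)
  refine step_std hP T A O1 (fun k => absurd (el.trans ej.symm) k) ?_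
  rintro e (rfl | rfl)
  · exact Or.inl rfl
  · exact Or.inr ⟨rfl, Or.inl (mem_PE.2 ⟨hr, hr', a'⟩)⟩

/-- an edge of a path, with its ends in order -/
theorem pe_ord {X : Set W} {ρ : W → ℤ} {a b : W} (h : Pth H X ρ a b) {e : Sym2 W}
    (he : e ∈ PE H X) : ∃ p ∈ X, ∃ p' ∈ X, H.Adj p p' ∧ ρ p < ρ p' ∧ e = s(p, p') := by
  obtain ⟨p, hp, q, hq, ad, rfl⟩ := he
  rcases h.lt_or hp hq ad.ne with l | l
  · exact ⟨p, hp, q, hq, ad, l, rfl⟩
  · exact ⟨q, hq, p, hp, ad.symm, l, Sym2.eq_swap⟩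

/-- Lemma TY without inner rungs. -/
theorem ty_nr (hP : Pl H Set.univ) (T : TA H) {d : DD W} (D : Disc H d) (hI : d.I.Nonempty)
    (N : NR H d) (hY : d.a' = d.b') {e e' : Sym2 W} (he : e ∈ PE H d.X) (he' : e' ∈ PE H d.X) :
    ∃ o, Out H d {e, e'} o := by
  obtain ⟨p, hp, p', hp', a, l, rfl⟩ := pe_ord D.px he
  obtain ⟨r, hr, r', hr', a', l', rfl⟩ := pe_ord D.px he'
  rcases lt_trichotomy (d.ρ p) (d.ρ r) with k | k | k
  · have := D.px.nb hp hp' a hr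
    exact ty_ord hP T D hI N hY hp hp' hr hr' a a' l (by omega) l'
  · obtain rfl : p = r := D.px.inj _ hp _ hr k
    obtain rfl : p' = r' := D.px.up_eq hp hp' hr' a a' l l'
    rw [Set.pair_eq_singleton]
    exact T d _ D (Adm.single (Or.inl he))
  · have := D.px.nb hr hr' a' hp
    rw [Set.pair_comm]
    exact ty_ord hP T D hI N hY hr hr' hp hp' a' a l' (by omega) l

end Pool.Agent.P.MP_08fd93_co.FU
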