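import Pool.Agent.P.MP_08fd93_co.FU.G1

/-! General main step, part 2: the left disc. -/

set_option autoImplicit false

namespace Pool.Agent.P.MP_08fd93_co.FU

open OV

variable {W : Type} {H : SimpleGraph W} {s : SD W} {o : OD W} {u0 : W}

theorem PA.dl (hP : Pl H Set.univ) (A : PA H s o u0) :
    Disc H (s.dL o) ∧ ((s.dL o).Zᶜ).ncard < (s.d.Zᶜ).ncard := by
  classical
  have P := A.stp
  have R := A.reg
  have DM := A.dm
  have O := A.s1
  have zT := A.zT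
  have jY := A.jY
  have tI := A.tI
  have wI := A.wI
  have tw := A.tw
  have py := A.pyL
  have D := P.disc
  have iX : ∀ x ∈ s.d.X, x ∉ s.d.I := fun x hx k => k (Or.inr (Or.inl hx))
  have iY : ∀ x ∈ s.d.Y, x ∉ s.d.I := fun x hx k => k (Or.inr (Or.inr hx))
  have iZ : ∀ x ∈ s.d.Z, x ∉ s.d.I := fun x hx k => k (Or.inl hx)
  have t1I : ∀ x ∈ s.T1 o, x ∈ s.d.I := fun x hx => (tI hx).elim (fun k => P.ti k) fun k => k.1
  have w1I : ∀ x ∈ s.W1 o, x ∈ s.d.I := fun x hx => (wI hx).elim (fun k => P.ti k) fun k => k.1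
  have mM : ∀ x, x ∈ s.dM.Z ↔ ¬ ((x ∈ s.XM ∨ (x ∈ s.τ ∨ x ∈ s.YM)) ∨ x ∈ s.Rg 1) :=
    fun x => Iff.rfl
  have mL : ∀ x, x ∈ (s.dL o).Z ↔
      ¬ ((x ∈ s.XL ∨ (x ∈ s.YL ∨ x ∈ s.T1 o)) ∨ (x ∈ s.Rg 0 ∨ x ∈ s.W1 o)) := fun x => Iff.rfl
  have mL' : ∀ x, x ∉ s.XL → x ∉ s.YL → x ∉ s.T1 o → x ∉ s.Rg 0 → x ∉ s.W1 o →
      x ∈ (s.dL o).Z := by
    intro x h1 h2 h3 h4 h5
    rw [mL]
    rintro ((k | k | k) | k | k)
    exacts [h1 k, h2 k, h3 k, h4 k, h5 k]
  have lj : s.d.ρ s.ql ≤ s.d.ρ s.qj := (P.ty s.v P.pt.hb s.ql P.hl P.vl).2.2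
  have plt := P.lt
  have rT : ∀ x ∈ s.τ, s.dM.ρ x = s.d.ρ s.qj - 1 - (s.σ s.v - s.σ x) := fun x hx => if_pos hx
  have rN : ∀ x, x ∉ s.τ → s.dM.ρ x = s.d.ρ x := fun x hx => if_neg hx
  have tY : ∀ x ∈ s.d.Y, x ∉ s.τ := fun x hx k => iY x hx (P.ti k)
  have vM : s.v ∈ s.dM.Y := Or.inl P.pt.hb
  have jM : s.qj ∈ s.dM.Y := Or.inr ⟨P.hj, le_rfl⟩
  have rj : o.ρ s.qj = s.d.ρ s.qj := by rw [O.ry _ jM jY, rN _ (tY _ P.hj)]
  have xlM : ∀ x ∈ s.XL, x ∈ s.dM.Z := by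
    intro x hx
    rw [mM]
    rintro ((k | k | k) | k)
    · have := k.2
      have := hx.2
      omega
    · exact iX x hx.1 (P.ti k)
    · exact D.xy hx.1 k.1
    · exact iX x hx.1 k.1
  have g0M : ∀ x ∈ s.Rg 0, x ∈ s.dM.Z := by
    intro x hx
    rw [mM]
    rintro ((q | q | q) | q)
    · exact iX x q.1 hx.1
    · exact hx.2.1 q
    · exact iY x q.1 hx.1
    · exact absurd (hx.2.2.symm.trans q.2.2) (by decide)
  have ylM : ∀ x ∈ s.YL, x ∈ s.dM.Z ∨ x = s.qj := by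
    intro x hx
    by_cases k : x ∈ s.YM
    · right
      have := k.2
      have := hx.2
      exact D.py.inj x hx.1 _ P.hj (by omega)
    · left
      rw [mM]
      rintro ((q | q | q) | q)
      · exact D.xy q.1 hx.1
      · exact tY x hx.1 q
      · exact k q
      · exact iY x hx.1 q.1
  have zz : s.d.Z ⊆ (s.dL o).Z := fun x hx =>
    mL' x (fun k => D.xz k.1 hx) (fun k => D.yz k.1 hx) (fun k => iZ x hx (t1I x k))
      (fun k => iZ x hx k.1) fun k => iZ x hx (w1I x k)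
  have xmL : ∀ x ∈ s.XM, x ∈ (s.dL o).Z := by
    intro x hx
    refine mL' x (fun k => ?_) (fun k => D.xy hx.1 k.1) (fun k => iX x hx.1 (t1I x k))
      (fun k => iX x hx.1 k.1) fun k => iX x hx.1 (w1I x k)
    have := k.2
    have := hx.2
    omega
  have yL : ∀ x ∈ s.d.Y, s.d.ρ s.ql < s.d.ρ x → x ∈ (s.dL o).Z := by
    intro x hx l
    refine mL' x (fun k => D.xy k.1 hx) (fun k => ?_) (fun k => iY x hx (t1I x k))
      (fun k => iY x hx k.1) fun k => iY x hx (w1I x k)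
    have := k.2
    omega
  have gL : ∀ k : Fin 4, k ≠ 0 → k ≠ 1 → s.Rg k ⊆ (s.dL o).Z := by
    intro k h0 h1 x hx
    have n : x ∉ s.τ ∪ s.Rg 1 := by
      rintro (q | q)
      exacts [hx.2.1 q, h1 (hx.2.2.symm.trans q.2.2)]
    exact mL' x (fun q => iX x q.1 hx.1) (fun q => iY x q.1 hx.1) (fun q => n (tI q))
      (fun q => h0 (hx.2.2.symm.trans q.2.2)) fun q => n (wI q)
  have pL : s.p' ∈ (s.dL o).Z := xmL _ ⟨P.hp', le_rfl⟩
  have tL : ∀ x ∈ (s.dL o).Z, x ∉ s.τ := by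
    intro x hx k
    rw [mL] at hx
    rcases tw k with q | q
    exacts [hx (Or.inl (Or.inr (Or.inr q))), hx (Or.inr (Or.inr q))]
  have oxL : ∀ x ∈ o.X, x ∈ (s.dL o).Z := by
    intro x hx
    refine mL' x (fun k => O.xz hx (O.zz (xlM x k))) (fun k => ?_) (fun k => O.xy hx k.1)
      (fun k => O.xz hx (O.zz (g0M x k))) fun k => O.xz hx k.1
    rcases ylM x k with q | q
    · exact O.xz hx (O.zz q)
    · exact O.xy hx (q ▸ jY)
  have oiL : (s.dM.upd o).I ⊆ (s.dL o).Z := by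
    intro x hx
    have h1 := DD.mem_I.1 hx
    refine mL' x (fun k => h1.1 (O.zz (xlM x k))) (fun k => ?_) (fun k => h1.2.2 k.1)
      (fun k => h1.1 (O.zz (g0M x k))) fun k => h1.1 k.1
    rcases ylM x k with q | q
    · exact h1.1 (O.zz q)
    · exact h1.2.2 (q ▸ jY)
  have bd : ∀ x ∈ (s.dL o).Z, x ∈ s.d.X ∪ s.d.Y → ∃ y ∈ s.d.Z, Conn H (s.dL o).Z x y := by
    intro x hx k
    obtain ⟨y, hy, a⟩ := D.tz k
    exact ⟨y, hy, Conn.step hx (zz hy) a⟩
  have nx : ∀ x ∈ (s.dL o).Z, ∀ q ∈ (s.dL o).Z, H.Adj x q →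
      (∃ y ∈ s.d.Z, Conn H (s.dL o).Z q y) → ∃ y ∈ s.d.Z, Conn H (s.dL o).Z x y := by
    rintro x hx q hq a ⟨y, hy, c⟩
    exact ⟨y, hy, (Conn.step hx hq a).trans c⟩
  have via : ∀ B : Set W, B ⊆ (s.dL o).Z → ∀ x ∈ B, ∀ y, Conn H B x y →
      (∃ w ∈ s.d.Z, Conn H (s.dL o).Z y w) → ∃ w ∈ s.d.Z, Conn H (s.dL o).Z x w := by
    rintro B hB x _ y c ⟨w, hw, c'⟩
    exact ⟨w, hw, (c.up hB).trans c'⟩
  have oxR : ∀ x ∈ o.X, ∃ y ∈ s.d.Z, Conn H (s.dL o).Z x y := by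
    intro x hx
    by_cases k : x ∈ s.dM.X
    · exact bd x (oxL x hx) (Or.inl k.1)
    · obtain ⟨u, -, hu, -, -, -, a, -⟩ := O.apex DM hx k
      exact nx x (oxL x hx) u (xmL u hu) a.symm (bd u (xmL u hu) (Or.inl hu.1))
  have zc : IsConn H (s.dL o).Z := by
    refine isConn_base D.zc zz fun x hx => ?_
    rcases s.d.cases x with h1 | h1 | h1 | h3
    · exact ⟨x, h1, Conn.rfl'⟩
    · exact bd x hx (Or.inl h1)
    · exact bd x hx (Or.inr h1)
    have h4 : x ∉ s.τ := tL x hx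
    have h5 : s.lab x ≠ 0 := fun q => (mL x).1 hx (Or.inr (Or.inl ⟨h3, h4, q⟩))
    have h6 : s.lab x = 1 ∨ s.lab x = 2 ∨ s.lab x = 3 := by
      revert h5
      generalize s.lab x = k
      revert k
      decide
    rcases h6 with e | e | e
    · have hM : x ∉ s.dM.Z := fun q => (mM x).1 q (Or.inr ⟨h3, h4, e⟩)
      have hT : x ∉ s.T1 o := fun q => (mL x).1 hx (Or.inl (Or.inr (Or.inr q)))
      have hW : x ∉ s.W1 o := fun q => (mL x).1 hx (Or.inr (Or.inr q))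
      rcases (s.dM.upd o).cases x with k | k | k | k
      · have hk : o.ax x ∉ s.T1 o := fun q => hW ⟨k, hM, q⟩
        have sub : Pk s.dM o (o.ax x) ⊆ (s.dL o).Z := by
          intro w hw
          refine mL' w (fun q => hw.2.1 (xlM w q)) (fun q => ?_) (fun q => O.yz q.1 hw.1)
            (fun q => hw.2.1 (g0M w q)) fun q => hk (hw.2.2 ▸ q.2.2)
          rcases ylM w q with r | r
          · exact hw.2.1 r
          · exact O.yz jY (r ▸ hw.1)
        obtain ⟨y, c, hy, old⟩ := O.pocket DM k hM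
        refine via _ sub x ⟨k, hM, rfl⟩ y c (bd y (sub hy) ?_)
        rcases old with q | q | q
        · exact Or.inl q.1
        · exact absurd q (tL y (sub hy))
        · exact Or.inr q.1
      · exact oxR x k
      · have nw : x ∉ s.dM.Y := by
          rintro (q | q)
          exacts [h4 q, iY x q.1 h3]
        have ge : s.d.ρ s.qj ≤ o.ρ x := by
          by_contra q
          exact hT ⟨k, by omega⟩
        obtain ⟨-, u, -, -, hu, -, -, a, -, l, -⟩ := O.swap.apex DM.swap k nw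
        have l' : o.ρ x < s.dM.ρ u := l
        rcases hu with hu | hu
        · rw [rT u hu] at l'
          have := P.pt.hi u hu
          omega
        · rw [rN u (tY u hu.1)] at l'
          have uL := yL u hu.1 (by omega)
          exact nx x hx u uL a (bd u uL (Or.inr hu.1))
      · obtain ⟨y, c, u, hu, a⟩ := O.disc.toX hP k
        exact via _ oiL x k y c (nx y (oiL (c.mem k)) u (oxL u hu) a (oxR u hu))
    · obtain ⟨-, y, c, a⟩ := R.c2 x ⟨h3, h4, e⟩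
      have g := gL 2 (by decide) (by decide)
      exact via _ g x ⟨h3, h4, e⟩ y c
        (nx y (g (c.mem ⟨h3, h4, e⟩)) _ pL a (bd _ pL (Or.inl P.hp')))
    · obtain ⟨y, y', q, q', -, c, -, a, -, hq, -, l1, l2, -⟩ := R.c3 x ⟨h3, h4, e⟩
      have g := gL 3 (by decide) (by decide)
      have qL := yL q' hq (by omega)
      exact via _ g x ⟨h3, h4, e⟩ y' c
        (nx y' (g (c.mem ⟨h3, h4, e⟩)) _ qL a (bd _ qL (Or.inr hq)))
  have iI : (s.dL o).I ⊆ s.d.I := by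
    intro x hx
    have h1 : x ∉ (s.dL o).Z := fun k => hx (Or.inl k)
    have h2 : x ∉ s.XL ∪ (s.YL ∪ s.T1 o) := fun k => hx (Or.inr k)
    rw [mL, not_not] at h1
    rcases h1.resolve_left h2 with k | k
    exacts [k.1, w1I x k]
  have px : Pth H s.XL (s.dL o).ρ s.d.a s.p := by
    refine (D.px.sub D.px.ha P.hp (D.px.lo _ P.hp) (A := s.XL) fun x => ?_).congr
      fun x hx => if_neg fun k => iX x hx.1 (t1I x k)
    exact ⟨fun k => ⟨k.1, D.px.lo x k.1, k.2⟩, fun k => ⟨k.1, k.2.2⟩⟩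
  have wM : ∀ x ∈ s.W1 o, ∀ b ∈ (s.dL o).Z, H.Adj x b → b ∉ s.dM.Z := by
    intro x hx b hb a hM
    have xI := w1I x hx
    have xt : x ∈ s.τ := by
      rcases DM.old hx.2.1 hM a with k | k | k
      · exact absurd xI (iX x k.1)
      · exact k
      · exact absurd xI (iY x k.1)
    have xv : x = s.v → s.ql = s.qj := fun e =>
      A.uv.resolve_left fun e' => O.yz A.uT.1 (e' ▸ e ▸ hx.1)
    have xz : x ≠ s.z := fun e => O.yz zT.1 (e ▸ hx.1)
    rcases s.d.cases b with k | k | k | k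
    · exact D.iz xI a k
    · have n1 : b ∉ s.XM := fun q => (mM b).1 hM (Or.inl (Or.inl q))
      have n2 : b ∉ s.XL := fun q => (mL b).1 hb (Or.inl (Or.inl q))
      refine D.px.nb P.hp P.hp' P.pp k ⟨?_, ?_⟩
      · by_contra q
        exact n2 ⟨k, by omega⟩
      · by_contra q
        exact n1 ⟨k, by omega⟩
    · obtain ⟨q1, q2, q3⟩ := P.ty x xt b k a
      have q4 := xv q1
      refine (mM b).1 hM (Or.inl (Or.inr (Or.inr ⟨k, ?_⟩)))
      rw [← q4]
      exact q2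
    · have h4 : b ∉ s.τ := tL b hb
      have h5 : s.lab b ≠ 0 := fun q => (mL b).1 hb (Or.inr (Or.inl ⟨k, h4, q⟩))
      have h5' : s.lab b ≠ 1 := fun q => (mM b).1 hM (Or.inr ⟨k, h4, q⟩)
      have h6 : s.lab b = 2 ∨ s.lab b = 3 := by
        revert h5 h5'
        generalize s.lab b = k
        revert k
        decide
      rcases h6 with e | e
      · rcases R.n2 ⟨b, ⟨k, h4, e⟩, a⟩ with q | q | q | q
        · exact q.2.1 xt
        · exact iX x (q ▸ P.hp) xI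
        · exact iX x (q ▸ P.hp') xI
        · exact xz q
      · rcases R.n3 ⟨b, ⟨k, h4, e⟩, a⟩ with q | q | q | q | q
        · exact q.2.1 xt
        · exact iY x q.1 xI
        · obtain ⟨_, _, r, r', -, -, -, -, -, -, -, k1, k2, k3⟩ := R.c3 b ⟨k, h4, e⟩
          rw [xv q] at k1
          omega
        · exact iY x (q ▸ P.hl) xI
        · exact iY x (q ▸ P.hj) xI
  refine ⟨⟨px, py, ?_, D.ra, P.zp.symm, zc, ?_, ?_, ?_, D.fin.subset iI, D.nj.mono iI⟩, ?_⟩
  · refine Set.disjoint_left.2 ?_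
    rintro x hx (k | k)
    · exact D.xy hx.1 k.1
    · exact iX x hx.1 (t1I x k)
  · exact Set.disjoint_left.2 fun x hx k => (mL x).1 hx (Or.inl k)
  · rintro x ⟨b, hb, a⟩
    by_cases h1 : x ∈ (s.dL o).Z
    · exact Or.inl h1
    rw [mL, not_not] at h1
    rcases h1 with h1 | h1 | h1
    · exact Or.inr h1
    · exfalso
      rcases R.n0 ⟨x, h1, a.symm⟩ with k | (k | k) | k
      · exact (mL b).1 hb (Or.inr (Or.inl k))
      · exact (mL b).1 hb (Or.inl (Or.inl k))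
      · exact (mL b).1 hb (Or.inl (Or.inr (Or.inl k)))
      · exact tL b hb k
    · exfalso
      have bM := wM x h1 b hb a
      have bT : b ∉ s.T1 o := fun q => (mL b).1 hb (Or.inl (Or.inr (Or.inr q)))
      have aT : o.ax x ∈ s.T1 o := h1.2.2
      rcases O.pk x h1.1 h1.2.1 b a with k | k | k | ⟨a', k | k⟩
      · exact bM k
      · exact (mL b).1 hb (Or.inr (Or.inr ⟨k.1, bM, k.2 ▸ aT⟩))
      · exact bT (k ▸ aT)
      · exact O.xy k.2 aT.1
      · have l2 : o.ρ (o.ax x) < s.d.ρ s.qj := aT.2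
        have l3 : s.d.ρ s.qj ≤ o.ρ b := by
          by_contra q
          exact bT ⟨k.1, by omega⟩
        have l4 := O.py.nb aT.1 k.1 a'.symm jY
        have e1 : b = s.qj := O.py.inj _ k.1 _ jY (by omega)
        have e2 : o.ax x = u0 := A.jeq aT (e1 ▸ a'.symm)
        rcases A.uv with e3 | e3
        · rcases O.ap x h1.1 h1.2.1 with q | q
          · exact O.xy q.1 aT.1
          · exact q.2 (e2 ▸ e3 ▸ vM)
        · refine (mL b).1 hb (Or.inl (Or.inr (Or.inl ?_)))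
          rw [e1, ← e3]
          exact ⟨P.hl, le_rfl⟩
  · rintro x (hx | hx | hx)
    · obtain ⟨y, hy, a⟩ := D.tz (Or.inl hx.1)
      exact ⟨y, zz hy, a⟩
    · obtain ⟨y, hy, a⟩ := D.tz (Or.inr hx.1)
      exact ⟨y, zz hy, a⟩
    · by_cases e : x = s.z
      · exact ⟨s.p', pL, e ▸ P.zp'⟩
      have e' : x ≠ s.d.b' := by
        intro q
        have h1 : o.ρ s.qj ≤ o.ρ s.d.b' := O.py.hi _ jY
        have h2 : o.ρ x < s.d.ρ s.qj := hx.2
        rw [q] at h2
        omega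
      obtain ⟨y, a, k | k⟩ := O.disc.swap.side hP (x := x) hx.1 e e'
      · rw [DD.swap_I] at k
        exact ⟨y, oiL k, a⟩
      · exact ⟨y, oxL y k, a⟩
  · refine Set.ncard_lt_ncard ⟨Set.compl_subset_compl.2 zz, fun k => ?_⟩ D.finc
    exact k (D.xz P.hp') pL

end Pool.Agent.P.MP_08fd93_co.FU
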