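import Pool.Agent.P.MP_08fd93_co.FU.G2
import Pool.Agent.P.MP_08fd93_co.OV.PkFct

/-! General main step, part 3: bookkeeping facts. -/

set_option autoImplicit false

namespace Pool.Agent.P.MP_08fd93_co.FU

open OV OV.P65 OV.PkStp4aP

/-- Everything known before the assembly of the general main step. -/
structure PG {W : Type} (H : SimpleGraph W) (s : SD W) (o1 o2 : OD W) (u : W) : Prop
    extends PA H s o1 u where
  dl : Disc H (s.dL o1)
  s2 : Shp H (s.dL o1) (s.SL H o1) o2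

namespace G3

open OV.PkFctP (notZL IZ IX IY zM ynLong memI memF)

variable {W : Type} {H : SimpleGraph W} {s : SD W} {o1 o2 : OD W} {u0 : W}

theorem lY (h : PG H s o1 o2 u0) : s.ql ∈ o2.Y :=
  (h.s2.yy (Or.inl ⟨h.stp.hl, le_rfl⟩)).resolve_right
    (h.s2.st _ ⟨u0, h.uT, s.ql, h.toPA.ul, rfl, Or.inl rfl⟩ _ (Sym2.mem_mk_right _ _))

theorem tY (h : PG H s o1 o2 u0) : s.T1 o1 ⊆ o2.Y := by
  intro t ht
  have hS := h.stp
  have py : Pth H o1.Y o1.ρ s.z s.d.b' := h.s1.disc.py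
  refine (h.s2.yy (Or.inr ht)).resolve_right ?_
  by_cases hτ : t ∈ s.τ
  · by_cases hz : t = s.z
    · exact hz ▸ yz h.s2 h.s2.disc.py.hb
    · have h1 := py.lo t ht.1
      have h2 : o1.ρ s.z < o1.ρ t :=
        lt_of_le_of_ne h1 fun e => hz (py.inj _ ht.1 _ py.ha e.symm)
      obtain ⟨t0, h0, hlt, hadj⟩ := pred py ht.1 py.ha h2
      have h3 := ht.2
      exact h.s2.st _ ⟨t0, ⟨h0, by omega⟩, t, hadj, rfl, Or.inr ⟨ht, hτ, hlt⟩⟩ _
        (Sym2.mem_mk_right _ _)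
  · by_cases hu : t = u0
    · exact h.s2.st _ ⟨t, ht, s.ql, hu ▸ h.toPA.ul, rfl, Or.inl rfl⟩ _ (Sym2.mem_mk_left _ _)
    have hv := h.uT.1
    have h1 := h.uT.2
    have h2 := h.toPA.um ht
    have h3 : o1.ρ t < o1.ρ u0 := lt_of_le_of_ne h2 fun e => hu (py.inj _ ht.1 _ hv e)
    obtain ⟨t', ht', hlt, hadj⟩ := succ py ht.1 hv h3
    have h4 := gap py ht.1 ht' hlt hadj hv
    have hT : t' ∈ s.T1 o1 := ⟨ht', by omega⟩
    have hτ' : t' ∈ s.τ := by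
      rcases h.s1.ny t ht.1 t' ht' hadj with (h5 | h5) | (h5 | h5)
      · exact absurd h5 hτ
      · exact absurd ht (h.toPA.YT h5.1)
      · exact h5
      · exact absurd hT (h.toPA.YT h5.1)
    exact h.s2.st _ ⟨t, ht, t', hadj, rfl, Or.inr ⟨hT, hτ', hlt⟩⟩ _ (Sym2.mem_mk_left _ _)

theorem rl (h : PG H s o1 o2 u0) : o2.ρ s.ql = s.d.ρ s.ql := by
  rw [h.s2.ry _ (Or.inl ⟨h.stp.hl, le_rfl⟩) (lY h), rL_not (h.toPA.YT h.stp.hl)]

theorem rt (h : PG H s o1 o2 u0) {t : W} (ht : t ∈ s.T1 o1) :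
    o2.ρ t = s.d.ρ s.ql + (s.d.ρ s.qj - o1.ρ t) := by
  rw [h.s2.ry _ (Or.inr ht) (tY h ht), rL_T ht]

theorem ry (h : PG H s o1 o2 u0) {y : W} (hy : y ∈ o2.Y) (hT : y ∉ s.T1 o1) :
    o2.ρ y ≤ s.d.ρ s.ql := by
  have py : Pth H o2.Y o2.ρ s.d.a' s.z := h.s2.disc.py
  have pL : Pth H (s.dL o1).Y (s.dL o1).ρ s.d.a' s.z := h.dl.py
  by_cases hL : y ∈ (s.dL o1).Y
  · rw [h.s2.ry _ hL hy, rL_not hT]
    exact (hL.resolve_right hT).2
  · by_contra hc
    have hl := rl h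
    have h1 : o2.ρ y < o2.ρ s.z := lt_of_le_of_ne (py.hi y hy) fun e =>
      hL (by rw [py.inj _ hy _ py.hb e]; exact pL.hb)
    obtain ⟨a, ha, la, aa⟩ := pred py hy (lY h) (by omega)
    obtain ⟨b, hb, lb, ab⟩ := succ py hy py.hb h1
    have haL : a ∈ (s.dL o1).Y := (h.s2.ny a ha y hy aa).resolve_right hL
    have hbL : b ∈ (s.dL o1).Y := (h.s2.ny y hy b hb ab).resolve_left hL
    have ea := h.s2.ry a haL ha
    have eb := h.s2.ry b hbL hb
    have g1 := gap py ha hy la aa (lY h)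
    have hn : ¬ H.Adj a b := fun hab => by
      have := gap py ha hb (by omega) hab hy
      omega
    rw [pL.adj a haL b hbL (by omega)] at hn
    push Not at hn
    obtain ⟨x, hx, l1, l2⟩ := hn
    have hxT : x ∈ s.T1 o1 := by
      by_contra hxT
      have h2 := (hx.resolve_right hxT).2
      rw [rL_not hxT] at l1
      omega
    have ex := h.s2.ry x hx (tY h hxT)
    have g2 := gap py ha hy la aa (tY h hxT)
    have g3 := gap py hy hb lb ab (tY h hxT)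
    exact hT (by rw [py.inj _ hy _ (tY h hxT) (by omega)]; exact hxT)

theorem a2 (h : PG H s o1 o2 u0) {x : W} (hx : x ∈ o2.Z) (hn : x ∉ (s.dL o1).Z) :
    o2.ax x ∉ s.T1 o1 := by
  intro hT
  rcases h.s2.ap x hx hn with h1 | h1
  · exact xy h.s2 h1.1 (tY h hT)
  · exact h1.2 (Or.inr hT)

theorem ov (h : PG H s o1 o2 u0) {x : W} (h1 : x ∉ (s.dL o1).Z) (h2 : x ∉ s.dM.Z) :
    x ∈ s.T1 o1 ∨ x ∈ s.W1 o1 ∨ (x = s.ql ∧ x = s.qj) := by
  have hS := h.stp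
  have hxy := Set.disjoint_left.1 hS.disc.dxy
  rcases notZL.1 h1 with (a | a | a) | (a | a)
  · exfalso
    rcases notZM.1 h2 with (b | b | b) | b
    · have := a.2
      have := b.2
      have := hS.lt
      omega
    · exact tauX hS a.1 b
    · exact hxy a.1 b.1
    · exact IX b.1 a.1
  · rcases notZM.1 h2 with (b | b | b) | b
    · exact absurd a.1 (hxy b.1)
    · exact absurd b (tauY hS a.1)
    · have := a.2
      have := b.2
      have := lj hS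
      exact Or.inr (Or.inr ⟨hS.disc.py.inj _ a.1 _ hS.hl (by omega),
        hS.disc.py.inj _ a.1 _ hS.hj (by omega)⟩)
    · exact absurd a.1 (IY b.1)
  · exact Or.inl a
  · exfalso
    rcases notZM.1 h2 with (b | b | b) | b
    · exact IX a.1 b.1
    · exact a.2.1 b
    · exact IY a.1 b.1
    · have h3 := a.2.2
      rw [b.2.2] at h3
      exact absurd h3 (by decide)
  · exact Or.inr (Or.inl a)

theorem zL (h : PG H s o1 o2 u0) {x : W} (hx : x ∈ s.d.Z) : x ∈ (s.dL o1).Z := by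
  have hz := Set.disjoint_left.1 h.stp.disc.dz hx
  by_contra hc
  rcases notZL.1 hc with (a | a | a) | (a | a)
  · exact hz (Or.inl a.1)
  · exact hz (Or.inr a.1)
  · exact IZ (h.toPA.T1I a) hx
  · exact IZ a.1 hx
  · exact IZ (h.toPA.W1I a) hx

theorem rgBoth (h : PG H s o1 o2 u0) {x : W} {k : Fin 4} (hk0 : k ≠ 0) (hk1 : k ≠ 1)
    (hx : x ∈ s.Rg k) : x ∈ (s.dL o1).Z ∧ x ∈ s.dM.Z := by
  have n1 : x ∉ s.τ ∪ s.Rg 1 := by
    rintro (b | b)
    · exact hx.2.1 b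
    · exact hk1 (hx.2.2.symm.trans b.2.2)
  constructor
  · by_contra hc
    rcases notZL.1 hc with (a | a | a) | (a | a)
    · exact IX hx.1 a.1
    · exact IY hx.1 a.1
    · exact n1 (h.toPA.tI a)
    · exact hk0 (hx.2.2.symm.trans a.2.2)
    · exact n1 (h.toPA.wI a)
  · by_contra hc
    rcases notZM.1 hc with (b | b | b) | b
    · exact IX hx.1 b.1
    · exact n1 (Or.inl b)
    · exact IY hx.1 b.1
    · exact n1 (Or.inr b)

theorem ynBoth (h : PG H s o1 o2 u0) {x : W} (hx : x ∈ s.YN) :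
    x ∈ (s.dL o1).Z ∧ x ∈ s.dM.Z := by
  have hxy := Set.disjoint_left.1 h.stp.disc.dxy
  obtain ⟨h1, h2, h3⟩ := hx
  constructor
  · by_contra hc
    rcases notZL.1 hc with (a | a | a) | (a | a)
    · exact hxy a.1 h1
    · have := a.2
      omega
    · exact IY (h.toPA.T1I a) h1
    · exact IY a.1 h1
    · exact IY (h.toPA.W1I a) h1
  · by_contra hc
    rcases notZM.1 hc with (b | b | b) | b
    · exact hxy b.1 h1
    · exact tauY h.stp h1 b
    · have := b.2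
      omega
    · exact IY b.1 h1

theorem both (h : PG H s o1 o2 u0) {x : W} (h1 : x ∈ (s.dL o1).Z) (h2 : x ∈ s.dM.Z)
    (h3 : x ∉ s.d.Z) : x ∈ s.Rg 2 ∨ x ∈ s.Rg 3 ∨ x ∈ s.YN := by
  have hS := h.stp
  by_cases hX : x ∈ s.d.X
  · exfalso
    rcases gap hS.disc.px hS.hp hS.hp' hS.lt hS.pp hX with a | a
    · exact notZL.2 (Or.inl (Or.inl ⟨hX, a⟩)) h1
    · exact notZM.2 (Or.inl (Or.inl ⟨hX, a⟩)) h2
  by_cases hY : x ∈ s.d.Y
  · refine Or.inr (Or.inr ⟨hY, ?_, ?_⟩)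
    · by_contra hc
      exact notZL.2 (Or.inl (Or.inr (Or.inl ⟨hY, le_of_not_gt hc⟩))) h1
    · by_contra hc
      exact notZM.2 (Or.inl (Or.inr (Or.inr ⟨hY, le_of_not_gt hc⟩))) h2
  have hI : x ∈ s.d.I := by
    rintro (a | a | a)
    · exact h3 a
    · exact hX a
    · exact hY a
  have hτ : x ∉ s.τ := fun a => notZM.2 (Or.inl (Or.inr (Or.inl a))) h2
  have key : ∀ k : Fin 4, k = 0 ∨ k = 1 ∨ k = 2 ∨ k = 3 := by decide
  rcases key (s.lab x) with a | a | a | a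
  · exact absurd h1 (notZL.2 (Or.inr (Or.inl ⟨hI, hτ, a⟩)))
  · exact absurd h2 (notZM.2 (Or.inr ⟨hI, hτ, a⟩))
  · exact Or.inl ⟨hI, hτ, a⟩
  · exact Or.inr (Or.inl ⟨hI, hτ, a⟩)

theorem mid (h : PG H s o1 o2 u0) (x : W) : x ∈ (s.d.upd (s.fin H o1 o2)).I ↔
    x ∈ (s.dM.upd o1).I ∨ x ∈ ((s.dL o1).upd o2).I ∨ x ∈ s.Rg 2 ∨
      (x ∈ s.T1 o1 ∧ ¬ (s.Long H ∧ x = s.v)) ∨ (x ∈ s.Rg 3 ∧ ¬ s.Long H) := by
  have hS := h.stp
  have wL : x ∈ s.W1 o1 → x ∉ (s.dL o1).Z := fun a => notZL.2 (Or.inr (Or.inr a))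
  have tL : x ∈ s.T1 o1 → x ∉ (s.dL o1).Z := fun a => notZL.2 (Or.inl (Or.inr (Or.inr a)))
  have z1 : x ∈ s.dM.Z → x ∈ o1.Z := fun a => h.s1.zz a
  have z2 : x ∈ (s.dL o1).Z → x ∈ o2.Z := fun a => h.s2.zz a
  have x1 : x ∈ o1.X → x ∉ o1.Z := xz h.s1
  have y1 : x ∈ o1.Y → x ∉ o1.Z := yz h.s1
  have x2 : x ∈ o2.X → x ∉ o2.Z := xz h.s2
  have y2 : x ∈ o2.Y → x ∉ o2.Z := yz h.s2
  have xy1 : x ∈ o1.X → x ∉ o1.Y := xy h.s1
  have xy2 : x ∈ o2.X → x ∉ o2.Y := xy h.s2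
  have t1 : x ∈ s.T1 o1 → x ∈ o1.Y := fun a => a.1
  have t2 : x ∈ s.T1 o1 → x ∈ o2.Y := fun a => tY h a
  have w1 : x ∈ s.W1 o1 → x ∈ o1.Z := fun a => a.1
  have vt : s.Long H ∧ x = s.v → x ∈ s.T1 o1 := fun e => e.2 ▸ h.toPA.lv e.1.1 ▸ h.uT
  have dzM : x ∈ s.d.Z → x ∈ s.dM.Z := zM hS
  have dzL : x ∈ s.d.Z → x ∈ (s.dL o1).Z := zL h
  have r3 : x ∈ s.Rg 3 ∨ x ∈ s.YN → x ∈ (s.dL o1).Z ∧ x ∈ s.dM.Z := fun a =>
    a.elim (rgBoth h (by decide) (by decide)) (ynBoth h)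
  rw [memF, memI, memI]
  constructor
  · rintro ⟨hZ, hX, hY⟩
    by_cases hL : x ∈ (s.dL o1).Z
    · by_cases hM : x ∈ s.dM.Z
      · rcases both h hL hM (fun a => hZ (Or.inl a)) with a | a | a
        · exact Or.inr (Or.inr (Or.inl a))
        · exact Or.inr (Or.inr (Or.inr (Or.inr ⟨a, fun l =>
            hZ (Or.inr (Or.inr (Or.inr ⟨l, Or.inl a⟩)))⟩)))
        · exact absurd (Or.inr (Or.inr (Or.inr ⟨ynLong hS a, Or.inr a⟩))) hZ
      · refine Or.inl ⟨fun a => hZ (Or.inr (Or.inr (Or.inl ⟨a, hM, fun b => wL b hL⟩))),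
          fun a => hX (Or.inr a), fun a => hY (Or.inl ⟨Or.inr a, fun b => tL b hL⟩)⟩
    · by_cases hT : x ∈ s.T1 o1
      · exact Or.inr (Or.inr (Or.inr (Or.inl ⟨hT, fun a => hY (Or.inr a)⟩)))
      · exact Or.inr (Or.inl ⟨fun a => hZ (Or.inr (Or.inl ⟨a, hL⟩)), fun a => hX (Or.inl a),
          fun a => hY (Or.inl ⟨Or.inl a, hT⟩)⟩)
  · have out : x ∈ (s.dL o1).Z → x ∈ s.dM.Z → x ∉ s.d.Z →
        ¬ (s.Long H ∧ (x ∈ s.Rg 3 ∨ x ∈ s.YN)) →
        ¬ (x ∈ s.d.Z ∨ (x ∈ o2.Z ∧ x ∉ (s.dL o1).Z) ∨ (x ∈ o1.Z ∧ x ∉ s.dM.Z ∧ x ∉ s.W1 o1) ∨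
          (s.Long H ∧ (x ∈ s.Rg 3 ∨ x ∈ s.YN))) ∧ ¬ (x ∈ o2.X ∨ x ∈ o1.X) ∧
          ¬ (((x ∈ o2.Y ∨ x ∈ o1.Y) ∧ x ∉ s.T1 o1) ∨ (s.Long H ∧ x = s.v)) := by
      intro hL hM hZ hl
      refine ⟨?_, ?_, ?_⟩
      · rintro (a | a | a | a)
        · exact hZ a
        · exact a.2 hL
        · exact a.2.1 hM
        · exact hl a
      · rintro (a | a)
        · exact x2 a (z2 hL)
        · exact x1 a (z1 hM)
      · rintro (⟨a | a, -⟩ | a)
        · exact y2 a (z2 hL)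
        · exact y1 a (z1 hM)
        · exact tL (vt a) hL
    rintro (⟨a1, a2, a3⟩ | ⟨a1, a2, a3⟩ | a | ⟨a1, a2⟩ | ⟨a1, a2⟩)
    · have hM : x ∉ s.dM.Z := fun b => a1 (z1 b)
      have hL : x ∈ (s.dL o1).Z := by
        by_contra hc
        rcases ov h hc hM with b | b | b
        · exact a3 (t1 b)
        · exact a1 (w1 b)
        · exact a3 (b.2 ▸ h.jY)
      refine ⟨?_, ?_, ?_⟩
      · rintro (b | b | b | b)
        · exact hM (dzM b)
        · exact b.2 hL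
        · exact a1 b.1
        · exact hM (r3 b.2).2
      · rintro (b | b)
        · exact x2 b (z2 hL)
        · exact a2 b
      · rintro (⟨b | b, -⟩ | b)
        · exact y2 b (z2 hL)
        · exact a3 b
        · exact a3 (t1 (vt b))
    · have hL : x ∉ (s.dL o1).Z := fun b => a1 (z2 b)
      have hM : x ∈ s.W1 o1 ∨ x ∈ s.dM.Z := by
        by_contra hc
        rcases ov h hL (fun b => hc (Or.inr b)) with b | b | b
        · exact a3 (t2 b)
        · exact hc (Or.inl b)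
        · exact a3 (b.1 ▸ lY h)
      have hZ1 : x ∈ o1.Z := hM.elim w1 z1
      refine ⟨?_, ?_, ?_⟩
      · rintro (b | b | b | b)
        · exact hL (dzL b)
        · exact a1 b.1
        · exact hM.elim b.2.2 b.2.1
        · exact hL (r3 b.2).1
      · rintro (b | b)
        · exact a2 b
        · exact x1 b hZ1
      · rintro (⟨b | b, -⟩ | b)
        · exact a3 b
        · exact y1 b hZ1
        · exact a3 (t2 (vt b))
    · obtain ⟨hL, hM⟩ := rgBoth h (k := 2) (by decide) (by decide) a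
      refine out hL hM (IZ a.1) ?_
      rintro ⟨-, b | b⟩
      · have h3 := a.2.2
        rw [b.2.2] at h3
        exact absurd h3 (by decide)
      · exact IY a.1 b.1
    · refine ⟨?_, ?_, ?_⟩
      · rintro (b | b | b | b)
        · exact tL a1 (dzL b)
        · exact y2 (t2 a1) b.1
        · exact y1 (t1 a1) b.1
        · exact tL a1 (r3 b.2).1
      · rintro (b | b)
        · exact xy2 b (t2 a1)
        · exact xy1 b (t1 a1)
      · rintro (b | b)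
        · exact b.2 a1
        · exact a2 b
    · obtain ⟨hL, hM⟩ := r3 (Or.inl a1)
      exact out hL hM (IZ a1.1) fun b => a2 b.1

end G3

end Pool.Agent.P.MP_08fd93_co.FU
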