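import Pool.Agent.P.MP_08fd93_co.FU.G3
import Pool.Agent.P.MP_08fd93_co.OV.PkFinA

/-! General main step, part 4: the two paths of the final output. -/

set_option autoImplicit false

namespace Pool.Agent.P.MP_08fd93_co.FU

open OV OV.P65 OV.PkStp4aP

namespace G4

open OV.PkFctP (notZL IZ IX IY zM ynLong memI memF)
open OV.PkFinAP (rF2 memY)
open G3

variable {W : Type} {H : SimpleGraph W} {s : SD W} {o1 o2 : OD W} {u0 : W}

theorem rF1 (h : PG H s o1 o2 u0) {x : W} (hx : x ∈ (s.dL o1).Z) :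
    (s.fin H o1 o2).ρ x = o1.ρ x :=
  if_neg fun a => a.elim (fun b => xz h.s2 b (h.s2.zz hx)) fun b => yz h.s2 b (h.s2.zz hx)

theorem x1L (h : PG H s o1 o2 u0) {x : W} (hx : x ∈ o1.X) : x ∈ (s.dL o1).Z := by
  by_contra hc
  rcases ov h hc (fun a => xz h.s1 hx (h.s1.zz a)) with a | a | a
  · exact xy h.s1 hx a.1
  · exact xz h.s1 hx a.1
  · exact xy h.s1 hx (a.2 ▸ h.jY)

theorem y1L (h : PG H s o1 o2 u0) {x : W} (hx : x ∈ o1.Y) (hT : x ∉ s.T1 o1) :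
    x ∈ (s.dL o1).Z ∨ (x = s.ql ∧ x = s.qj) := by
  by_contra hc
  rcases ov h (fun a => hc (Or.inl a)) (fun a => yz h.s1 hx (h.s1.zz a)) with a | a | a
  · exact hT a
  · exact yz h.s1 hx a.1
  · exact hc (Or.inr a)

theorem rFB (h : PG H s o1 o2 u0) {x : W} (hx : x ∈ o1.Y) (hT : x ∉ s.T1 o1) :
    (s.fin H o1 o2).ρ x = o1.ρ x := by
  rcases y1L h hx hT with a | ⟨a, b⟩
  · exact rF1 h a
  · rw [rF2 (Or.inr (a ▸ lY h))]
    have h1 := rl h
    have h2 := h.toPA.rj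
    rw [← a] at h1
    rw [← b] at h2
    rw [h1, h2]

theorem xlM (h : PG H s o1 o2 u0) {x : W} (hx : x ∈ s.XL) : x ∈ s.dM.Z := by
  by_contra hc
  rcases ov h (notZL.2 (Or.inl (Or.inl hx))) hc with a | a | a
  · exact h.toPA.XT hx.1 a
  · exact IX (h.toPA.W1I a) hx.1
  · exact Set.disjoint_left.1 h.stp.disc.dxy hx.1 (a.1 ▸ h.stp.hl)

theorem crossX (h : PG H s o1 o2 u0) {x y : W} (hx : x ∈ o2.X) (hy : y ∈ o1.X) (hadj : H.Adj x y) :
    x = s.p ∧ y = s.p' := by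
  have hS := h.stp
  have h1 : x ∈ s.XL := by
    rcases h.dl.cl ⟨y, x1L h hy, hadj⟩ with a | a | a
    · exact absurd (h.s2.zz a) (xz h.s2 hx)
    · exact a
    · rcases h.s2.yy a with b | b
      · exact absurd b (xy h.s2 hx)
      · exact absurd b (xz h.s2 hx)
  have h2 : y ∈ s.XM := by
    rcases h.dm.cl ⟨x, xlM h h1, hadj.symm⟩ with a | a | a
    · exact absurd (h.s1.zz a) (xz h.s1 hy)
    · exact a
    · rcases h.s1.yy a with b | b
      · exact absurd b (xy h.s1 hy)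
      · exact absurd b (xz h.s1 hy)
  have h3 := h1.2
  have h4 := h2.2
  have h5 := hS.lt
  have g1 := gap hS.disc.px h1.1 h2.1 (by omega) hadj hS.hp
  have g2 := gap hS.disc.px h1.1 h2.1 (by omega) hadj hS.hp'
  exact ⟨hS.disc.px.inj _ h1.1 _ hS.hp (by omega), hS.disc.px.inj _ h2.1 _ hS.hp' (by omega)⟩

theorem rX2 (h : PG H s o1 o2 u0) {u : W} (hu : u ∈ s.d.X) (hx : u ∈ o2.X) :
    o2.ρ u = s.d.ρ u := by
  have h1 : u ∈ s.XL := by
    rcases notZL.1 (fun a => xz h.s2 hx (h.s2.zz a)) with (a | a | a) | (a | a)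
    · exact a
    · exact absurd a.1 (Set.disjoint_left.1 h.stp.disc.dxy hu)
    · exact absurd a (h.toPA.XT hu)
    · exact absurd hu (IX a.1)
    · exact absurd hu (IX (h.toPA.W1I a))
  rw [h.s2.rx u h1 hx, rL_not (h.toPA.XT hu)]

theorem rX1 (h : PG H s o1 o2 u0) {u : W} (hu : u ∈ s.d.X) (hx : u ∈ o1.X) :
    o1.ρ u = s.d.ρ u := by
  have h1 : u ∈ s.XM := by
    rcases notZM.1 (fun a => xz h.s1 hx (h.s1.zz a)) with (a | a | a) | a
    · exact a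
    · exact absurd a (tauX h.stp hu)
    · exact absurd a.1 (Set.disjoint_left.1 h.stp.disc.dxy hu)
    · exact absurd hu (IX a.1)
  rw [h.s1.rx u h1 hx, rM_not (tauX h.stp hu)]

theorem px (h : PG H s o1 o2 u0) :
    Pth H (s.fin H o1 o2).X (s.fin H o1 o2).ρ s.d.a s.d.b := by
  have hS := h.stp
  have p2 : Pth H o2.X o2.ρ s.d.a s.p := h.s2.disc.px
  have p1 : Pth H o1.X o1.ρ s.p' s.d.b := h.s1.disc.px
  refine join (congr p2 fun x hx => rF2 (Or.inl hx)) (congr p1 fun x hx => rF1 h (x1L h hx))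
    (fun _ => Iff.rfl) (Or.inr ⟨?_, hS.pp⟩) fun x hx y hy hadj =>
      Or.inr (Or.inr (crossX h hx hy hadj))
  rw [rF2 (Or.inl p2.hb), rF1 h (x1L h p1.ha), rX2 h hS.hp p2.hb, rX1 h hS.hp' p1.ha]
  exact hS.lt

/-- An edge between the two old parts of the second path. -/
theorem crossY (h : PG H s o1 o2 u0) {x y : W} (hx : x ∈ o2.Y) (hxT : x ∉ s.T1 o1) (hy : y ∈ o1.Y)
    (hyT : y ∉ s.T1 o1) (hadj : H.Adj x y) :
    (x = s.ql ∧ x = s.qj) ∨ (y = s.ql ∧ y = s.qj) ∨ (x = s.ql ∧ y = s.qj) := by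
  have hS := h.stp
  rcases y1L h hy hyT with hL | hL
  swap
  · exact Or.inr (Or.inl hL)
  have h1 : x ∈ s.YL := by
    rcases h.dl.cl ⟨y, hL, hadj⟩ with a | a | a | a
    · exact absurd (h.s2.zz a) (yz h.s2 hx)
    · rcases h.s2.xx a with b | b
      · exact absurd hx (xy h.s2 b)
      · exact absurd b (yz h.s2 hx)
    · exact a
    · exact absurd a hxT
  by_cases hM : x ∈ s.dM.Z
  swap
  · rcases ov h (notZL.2 (Or.inl (Or.inr (Or.inl h1)))) hM with a | a | a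
    · exact absurd a hxT
    · exact absurd h1.1 (IY (h.toPA.W1I a))
    · exact Or.inl a
  have h2 : y ∈ s.YM := by
    rcases h.dm.cl ⟨x, hM, hadj.symm⟩ with a | a | a | a
    · exact absurd (h.s1.zz a) (yz h.s1 hy)
    · rcases h.s1.xx a with b | b
      · exact absurd hy (xy h.s1 b)
      · exact absurd b (yz h.s1 hy)
    · exact absurd (h.toPA.tauT a hy) hyT
    · exact a
  have h3 := h1.2
  have h4 := h2.2
  have h5 := lj hS
  have h6 : s.d.ρ x ≠ s.d.ρ y := fun e => hadj.ne (hS.disc.py.inj _ h1.1 _ h2.1 e)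
  have g1 := gap hS.disc.py h1.1 h2.1 (by omega) hadj hS.hl
  have g2 := gap hS.disc.py h1.1 h2.1 (by omega) hadj hS.hj
  have inj := hS.disc.py.inj
  rcases g1 with g1 | g1
  · rcases g2 with g2 | g2
    · exact Or.inl ⟨inj _ h1.1 _ hS.hl (by omega), inj _ h1.1 _ hS.hj (by omega)⟩
    · exact Or.inr (Or.inr ⟨inj _ h1.1 _ hS.hl (by omega), inj _ h2.1 _ hS.hj (by omega)⟩)
  · exact Or.inr (Or.inl ⟨inj _ h2.1 _ hS.hl (by omega), inj _ h2.1 _ hS.hj (by omega)⟩)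

theorem rv2 (h : PG H s o1 o2 u0) (hv : s.v ∈ s.T1 o1) : o2.ρ s.v = s.d.ρ s.ql + 1 := by
  rw [rt h hv, h.s1.ry _ (Or.inl h.stp.pt.hb) hv.1, rM_tau h.stp.pt.hb]
  ring

theorem vA (h : PG H s o1 o2 u0) {x t : W} (hx : x ∈ o2.Y) (hxT : x ∉ s.T1 o1)
    (ht : t ∈ s.T1 o1) (hadj : H.Adj x t) : x = s.ql := by
  have p2 : Pth H o2.Y o2.ρ s.d.a' s.z := h.s2.disc.py
  have h1 := ry h hx hxT
  have h2 := rt h ht
  have h3 := rl h
  have h4 := ht.2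
  have g := gap p2 hx (tY h ht) (by omega) hadj (lY h)
  exact p2.inj _ hx _ (lY h) (by omega)

theorem vB (h : PG H s o1 o2 u0) {y t : W} (hy : y ∈ o1.Y) (hyT : y ∉ s.T1 o1)
    (ht : t ∈ s.T1 o1) (hadj : H.Adj t y) : y = s.qj := by
  have p1 : Pth H o1.Y o1.ρ s.z s.d.b' := h.s1.disc.py
  have h1 : s.d.ρ s.qj ≤ o1.ρ y := le_of_not_gt fun a => hyT ⟨hy, a⟩
  have h2 := ht.2
  have h3 := h.toPA.rj
  have g := gap p1 ht.1 hy (by omega) hadj h.jY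
  exact p1.inj _ hy _ h.jY (by omega)

theorem vL (h : PG H s o1 o2 u0) (hL : s.Long H) : s.v ∈ s.T1 o1 := h.toPA.lv hL.1 ▸ h.uT

theorem nyv (h : PG H s o1 o2 u0) (hL : s.Long H) {u : W} (hu : u ∈ (s.fin H o1 o2).Y)
    (hadj : H.Adj u s.v) : u ∈ s.d.Y := by
  rcases memY.1 hu with ⟨a | a, hT⟩ | a
  · exact vA h a hT (vL h hL) hadj ▸ h.stp.hl
  · exact vB h a hT (vL h hL) hadj.symm ▸ h.stp.hj
  · exact absurd a.2 hadj.ne

theorem py (h : PG H s o1 o2 u0) :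
    Pth H (s.fin H o1 o2).Y (s.fin H o1 o2).ρ s.d.a' s.d.b' := by
  have hS := h.stp
  have p2 : Pth H o2.Y o2.ρ s.d.a' s.z := h.s2.disc.py
  have p1 : Pth H o1.Y o1.ρ s.z s.d.b' := h.s1.disc.py
  have lT : s.ql ∉ s.T1 o1 := h.toPA.YT hS.hl
  have jT : s.qj ∉ s.T1 o1 := h.toPA.YT hS.hj
  have hA : Pth H {y | y ∈ o2.Y ∧ y ∉ s.T1 o1} (s.fin H o1 o2).ρ s.d.a' s.ql := by
    refine congr (seg_lo p2 (lY h) fun x => and_congr_right fun hx => ?_)
      fun x hx => rF2 (Or.inr hx.1)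
    rw [rl h]
    refine ⟨ry h hx, fun a b => ?_⟩
    have h1 := rt h b
    have h2 := b.2
    omega
  have hB : Pth H {y | y ∈ o1.Y ∧ y ∉ s.T1 o1} (s.fin H o1 o2).ρ s.qj s.d.b' := by
    refine congr (seg_hi p1 (h.jY) fun x => and_congr_right fun hx => ?_)
      fun x hx => rFB h hx.1 hx.2
    rw [h.toPA.rj]
    refine ⟨fun a => le_of_not_gt fun b => a ⟨hx, b⟩, fun a b => ?_⟩
    have h2 := b.2
    omega
  have el : (s.fin H o1 o2).ρ s.ql = s.d.ρ s.ql := by rw [rF2 (Or.inr (lY h)), rl h]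
  have ej : (s.fin H o1 o2).ρ s.qj = s.d.ρ s.qj := by
    rw [rFB h (h.jY) jT, h.toPA.rj]
  have hlj := lj hS
  by_cases hL : s.Long H
  · have ev : (s.fin H o1 o2).ρ s.v = s.d.ρ s.ql + 1 := by
      rw [rF2 (Or.inr (tY h (vL h hL))), rv2 h (vL h hL)]
    have hlt : s.d.ρ s.ql < s.d.ρ s.qj :=
      lt_of_le_of_ne hlj fun e => hL.1 (hS.disc.py.inj _ hS.hl _ hS.hj e)
    have hgap : s.d.ρ s.ql + 1 < s.d.ρ s.qj := by
      have hn := hL.2
      rw [hS.disc.py.adj _ hS.hl _ hS.hj hlt] at hn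
      push Not at hn
      obtain ⟨x, -, l1, l2⟩ := hn
      omega
    have hAv : Pth H {y | (y ∈ o2.Y ∧ y ∉ s.T1 o1) ∨ y = s.v} (s.fin H o1 o2).ρ s.d.a' s.v := by
      refine join hA (single _ s.v) (fun _ => Iff.rfl) (Or.inr ⟨by omega, hS.vl.symm⟩) ?_
      intro x hx y hy hadj
      have e : y = s.v := hy
      exact Or.inr (Or.inr ⟨vA h hx.1 hx.2 (vL h hL) (e ▸ hadj), e⟩)
    refine join hAv hB (fun x => ?_) (Or.inr ⟨by omega, hS.vj⟩) ?_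
    · rw [memY]
      simp only [Set.mem_ofPred_eq]
      tauto
    · rintro x (hx | hx) y hy hadj
      · exfalso
        rcases crossY h hx.1 hx.2 hy.1 hy.2 hadj with a | a | a
        · exact hL.1 (a.1.symm.trans a.2)
        · exact hL.1 (a.1.symm.trans a.2)
        · exact hL.2 (a.1 ▸ a.2 ▸ hadj)
      · exact Or.inr (Or.inr ⟨hx, vB h hy.1 hy.2 (vL h hL) (hx ▸ hadj)⟩)
  · refine join hA hB (fun x => ?_) ?_ ?_
    · rw [memY]
      simp only [Set.mem_ofPred_eq]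
      tauto
    · by_cases e : s.ql = s.qj
      · exact Or.inl e
      · refine Or.inr ⟨?_, by_contra fun a => hL ⟨e, a⟩⟩
        rw [el, ej]
        exact lt_of_le_of_ne hlj fun e' => e (hS.disc.py.inj _ hS.hl _ hS.hj e')
    · intro x hx y hy hadj
      rcases crossY h hx.1 hx.2 hy.1 hy.2 hadj with a | a | a
      · exact Or.inl (a.2 ▸ hB.ha)
      · exact Or.inr (Or.inl (a.1 ▸ hA.hb))
      · exact Or.inr (Or.inr a)

theorem ry' (h : PG H s o1 o2 u0) {u : W} (hu : u ∈ s.d.Y) (hy : u ∈ (s.fin H o1 o2).Y) :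
    (s.fin H o1 o2).ρ u = s.d.ρ u := by
  have hS := h.stp
  have hxy := Set.disjoint_left.1 hS.disc.dxy
  rcases memY.1 hy with ⟨a | a, hT⟩ | a
  · have h1 : u ∈ s.YL := by
      rcases notZL.1 (fun b => yz h.s2 a (h.s2.zz b)) with (b | b | b) | (b | b)
      · exact absurd hu (hxy b.1)
      · exact b
      · exact absurd b hT
      · exact absurd hu (IY b.1)
      · exact absurd hu (IY (h.toPA.W1I b))
    rw [rF2 (Or.inr a), h.s2.ry u (Or.inl h1) a, rL_not hT]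
  · have h1 : u ∈ s.YM := by
      rcases notZM.1 (fun b => yz h.s1 a (h.s1.zz b)) with (b | b | b) | b
      · exact absurd hu (hxy b.1)
      · exact absurd b (tauY hS hu)
      · exact b
      · exact absurd hu (IY b.1)
    rw [rFB h a hT, h.s1.ry u (Or.inr h1) a, rM_not (tauY hS hu)]
  · exact absurd (a.2 ▸ hS.pt.hb) (tauY hS hu)

theorem nyc (h : PG H s o1 o2 u0) {x y : W} (hx : x ∈ o2.Y) (hxT : x ∉ s.T1 o1) (hy : y ∈ o1.Y)
    (hyT : y ∉ s.T1 o1) (hadj : H.Adj x y) : x ∈ s.d.Y ∨ y ∈ s.d.Y := by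
  rcases crossY h hx hxT hy hyT hadj with a | a | a
  · exact Or.inl (a.1 ▸ h.stp.hl)
  · exact Or.inr (a.1 ▸ h.stp.hl)
  · exact Or.inl (a.1 ▸ h.stp.hl)

theorem ny' (h : PG H s o1 o2 u0) {u w : W} (hu : u ∈ (s.fin H o1 o2).Y)
    (hw : w ∈ (s.fin H o1 o2).Y) (hadj : H.Adj u w) : u ∈ s.d.Y ∨ w ∈ s.d.Y := by
  rcases memY.1 hu with ⟨a, hT⟩ | a
  · rcases memY.1 hw with ⟨b, hT'⟩ | b
    · rcases a with a | a <;> rcases b with b | b
      · exact (h.s2.ny u a w b hadj).imp (fun c => (c.resolve_right hT).1)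
          fun c => (c.resolve_right hT').1
      · exact nyc h a hT b hT' hadj
      · exact (nyc h b hT' a hT hadj.symm).symm
      · exact (h.s1.ny u a w b hadj).imp
          (fun c => (c.resolve_left fun e => hT (h.toPA.tauT e a)).1)
          fun c => (c.resolve_left fun e => hT' (h.toPA.tauT e b)).1
    · exact Or.inl (nyv h b.1 hu (b.2 ▸ hadj))
  · exact Or.inr (nyv h a.1 hw (a.2 ▸ hadj.symm))

theorem finP (h : PG H s o1 o2 u0) : FinP H s (s.fin H o1 o2) where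
  px := px h
  py := py h
  rx u hu hx := by
    rcases hx with a | a
    · rw [rF2 (Or.inl a), rX2 h hu a]
    · rw [rF1 h (x1L h a), rX1 h hu a]
  ry _ hu hy := ry' h hu hy
  nx u hu w hw hadj := by
    rcases hu with a | a <;> rcases hw with b | b
    · exact (h.s2.nx u a w b hadj).imp (fun c => c.1) fun c => c.1
    · exact Or.inl ((crossX h a b hadj).1 ▸ h.stp.hp)
    · exact Or.inr ((crossX h b a hadj.symm).1 ▸ h.stp.hp)
    · exact (h.s1.nx u a w b hadj).imp (fun c => c.1) fun c => c.1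
  ny _ hu _ hw hadj := ny' h hu hw hadj

end G4

/-- Bookkeeping facts for the assembly of the general main step. -/
structure FG {W : Type} (H : SimpleGraph W) (s : SD W) (o1 o2 : OD W) : Prop where
  vT : s.Long H → s.v ∈ s.T1 o1
  zT : s.z ∈ s.T1 o1
  jY : s.qj ∈ o1.Y
  lY : s.ql ∈ o2.Y
  tY : s.T1 o1 ⊆ o2.Y
  tI : s.T1 o1 ⊆ s.τ ∪ s.Rg 1
  wI : s.W1 o1 ⊆ s.τ ∪ s.Rg 1
  tw : s.τ ⊆ s.T1 o1 ∪ s.W1 o1
  rj : o1.ρ s.qj = s.d.ρ s.qj
  rl : o2.ρ s.ql = s.d.ρ s.ql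
  rt : ∀ t ∈ s.T1 o1, o2.ρ t = s.d.ρ s.ql + (s.d.ρ s.qj - o1.ρ t)
  ry : ∀ y ∈ o2.Y, y ∉ s.T1 o1 → o2.ρ y ≤ s.d.ρ s.ql
  lj : s.d.ρ s.ql ≤ s.d.ρ s.qj
  a2 : ∀ x ∈ o2.Z, x ∉ (s.dL o1).Z → o2.ax x ∉ s.T1 o1
  ov : ∀ x, x ∉ (s.dL o1).Z → x ∉ s.dM.Z → x ∈ s.T1 o1 ∨ x ∈ s.W1 o1 ∨ (x = s.ql ∧ x = s.qj)
  mid : ∀ x, x ∈ (s.d.upd (s.fin H o1 o2)).I ↔
    x ∈ (s.dM.upd o1).I ∨ x ∈ ((s.dL o1).upd o2).I ∨ x ∈ s.Rg 2 ∨
      (x ∈ s.T1 o1 ∧ ¬ (s.Long H ∧ x = s.v)) ∨ (x ∈ s.Rg 3 ∧ ¬ s.Long H)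

theorem PG.fg {W : Type} {H : SimpleGraph W} {s : SD W} {o1 o2 : OD W} {u0 : W}
    (h : PG H s o1 o2 u0) : FG H s o1 o2 where
  vT := G4.vL h
  zT := h.toPA.zT
  jY := h.jY
  lY := G3.lY h
  tY := G3.tY h
  tI := h.toPA.tI
  wI := h.toPA.wI
  tw := h.toPA.tw
  rj := h.toPA.rj
  rl := G3.rl h
  rt _ ht := G3.rt h ht
  ry _ hy hT := G3.ry h hy hT
  lj := lj h.stp
  a2 _ hx hn := G3.a2 h hx hn
  ov _ h1 h2 := G3.ov h h1 h2
  mid := G3.mid h

end Pool.Agent.P.MP_08fd93_co.FU
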