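import Pool.Agent.P.MP_08fd93_co.FU.G4
import Pool.Agent.P.MP_08fd93_co.OV.PkFinB

/-! General main step, part 5: the shape of the final output. -/

set_option autoImplicit false

namespace Pool.Agent.P.MP_08fd93_co.FU

open OV

namespace G5

open OV.PkFinBP (mL mM mZ mX mY axA axB axC rgI rg_ne cases8 xLM long_of iX iY iZ dMI newY)

variable {W : Type} {H : SimpleGraph W} {s : SD W} {o1 o2 : OD W} {u0 : W}

theorem tauI (P : PG H s o1 o2 u0) {x : W} (h : x ∈ s.τ ∪ s.Rg 1) : x ∈ s.d.I :=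
  h.elim (fun h => P.stp.ti h) rgI

theorem zL (P : PG H s o1 o2 u0) (F : FG H s o1 o2) {x : W} (h : x ∈ s.d.Z) :
    x ∈ (s.dL o1).Z :=
  mL.2 ⟨fun hh => P.stp.disc.xz hh.1 h, fun hh => P.stp.disc.yz hh.1 h,
    fun hh => iZ (tauI P (F.tI hh)) h, fun hh => iZ (rgI hh) h, fun hh => iZ (tauI P (F.wI hh)) h⟩

theorem zM (P : PG H s o1 o2 u0) {x : W} (h : x ∈ s.d.Z) : x ∈ s.dM.Z :=
  mM.2 ⟨fun hh => P.stp.disc.xz hh.1 h, fun hh => iZ (P.stp.ti hh) h,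
    fun hh => P.stp.disc.yz hh.1 h, fun hh => iZ (rgI hh) h⟩

theorem cL (P : PG H s o1 o2 u0) (F : FG H s o1 o2) {x : W} (h : x ∈ s.Rg 3 ∨ x ∈ s.YN) :
    x ∈ (s.dL o1).Z := by
  have k : x ∉ s.τ ∪ s.Rg 1 := by
    rcases h with h | h
    · rintro (hh | hh)
      exacts [h.2.1 hh, absurd (rg_ne h hh) (by decide)]
    · exact fun hh => iY (tauI P hh) h.1
  refine mL.2 ⟨fun hh => ?_, fun hh => ?_, fun hh => k (F.tI hh), fun hh => ?_,
    fun hh => k (F.wI hh)⟩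
  · rcases h with h | h
    exacts [iX (rgI h) hh.1, P.stp.disc.xy hh.1 h.1]
  · rcases h with h | h
    · exact iY (rgI h) hh.1
    · have := hh.2
      have := h.2.1
      omega
  · rcases h with h | h
    exacts [absurd (rg_ne h hh) (by decide), iY (rgI hh) h.1]

theorem cM (P : PG H s o1 o2 u0) {x : W} (h : x ∈ s.Rg 3 ∨ x ∈ s.YN) : x ∈ s.dM.Z := by
  refine mM.2 ⟨fun hh => ?_, fun hh => ?_, fun hh => ?_, fun hh => ?_⟩
  · rcases h with h | h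
    exacts [iX (rgI h) hh.1, P.stp.disc.xy hh.1 h.1]
  · rcases h with h | h
    exacts [h.2.1 hh, iY (P.stp.ti hh) h.1]
  · rcases h with h | h
    · exact iY (rgI h) hh.1
    · have := hh.2
      have := h.2.2
      omega
  · rcases h with h | h
    exacts [absurd (rg_ne h hh) (by decide), iY (rgI hh) h.1]

theorem bL (P : PG H s o1 o2 u0) (F : FG H s o1 o2) {x : W} (h1 : x ∈ o1.Z) (h2 : x ∉ s.dM.Z)
    (h3 : x ∉ s.W1 o1) : x ∈ (s.dL o1).Z := by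
  by_contra hn
  rcases F.ov x hn h2 with h | h | h
  · exact P.s1.yz h.1 h1
  · exact h3 h
  · exact P.s1.yz F.jY (h.2 ▸ h1)

theorem dLI (P : PG H s o1 o2 u0) (F : FG H s o1 o2) {x : W} (h : x ∈ (s.dL o1).I) :
    x ∈ s.d.I := by
  obtain ⟨h1, h2, h3⟩ := DD.mem_I.1 h
  by_contra hn
  refine h1 (mL.2 ⟨h2, fun hh => h3 (Or.inl hh), fun hh => h3 (Or.inr hh),
    fun hh => hn (rgI hh), fun hh => hn (tauI P (F.wI hh))⟩)

theorem xx (P : PG H s o1 o2 u0) (F : FG H s o1 o2) :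
    s.d.X ⊆ (s.fin H o1 o2).X ∪ (s.fin H o1 o2).Z := by
  intro x hx
  rcases xLM P.stp hx with h | h
  · rcases P.s2.xx h with h1 | h1
    · exact Or.inl (Or.inl h1)
    · exact Or.inr (Or.inr (Or.inl ⟨h1, fun hh => (mL.1 hh).1 h⟩))
  · rcases P.s1.xx h with h1 | h1
    · exact Or.inl (Or.inr h1)
    · exact Or.inr (Or.inr (Or.inr (Or.inl ⟨h1, fun hh => (mM.1 hh).1 h,
        fun hh => iX (tauI P (F.wI hh)) hx⟩)))

theorem yy (P : PG H s o1 o2 u0) (F : FG H s o1 o2) :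
    s.d.Y ⊆ (s.fin H o1 o2).Y ∪ (s.fin H o1 o2).Z := by
  intro x hx
  have nT : x ∉ s.T1 o1 := fun hh => iY (tauI P (F.tI hh)) hx
  by_cases l : s.d.ρ x ≤ s.d.ρ s.ql
  · have h : x ∈ s.YL := ⟨hx, l⟩
    rcases P.s2.yy (Or.inl h) with h1 | h1
    · exact Or.inl (Or.inl ⟨Or.inl h1, nT⟩)
    · exact Or.inr (Or.inr (Or.inl ⟨h1, fun hh => (mL.1 hh).2.1 h⟩))
  by_cases l' : s.d.ρ s.qj ≤ s.d.ρ x
  · have h : x ∈ s.YM := ⟨hx, l'⟩
    rcases P.s1.yy (Or.inr h) with h1 | h1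
    · exact Or.inl (Or.inl ⟨Or.inr h1, nT⟩)
    · exact Or.inr (Or.inr (Or.inr (Or.inl ⟨h1, fun hh => (mM.1 hh).2.2.1 h,
        fun hh => iY (tauI P (F.wI hh)) hx⟩)))
  · have h : x ∈ s.YN := ⟨hx, by omega, by omega⟩
    exact Or.inr (Or.inr (Or.inr (Or.inr ⟨long_of P.stp h, Or.inr h⟩)))

theorem vI (P : PG H s o1 o2 u0) : s.v ∈ s.d.I := P.stp.ti P.stp.pt.hb
theorem zI (P : PG H s o1 o2 u0) : s.z ∈ s.d.I := P.stp.ti P.stp.pt.ha

theorem ap (P : PG H s o1 o2 u0) (F : FG H s o1 o2) : ∀ x ∈ (s.fin H o1 o2).Z, x ∉ s.d.Z →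
    ((s.fin H o1 o2).ax x ∈ (s.fin H o1 o2).X ∧ (s.fin H o1 o2).ax x ∉ s.d.X) ∨
      ((s.fin H o1 o2).ax x ∈ (s.fin H o1 o2).Y ∧ (s.fin H o1 o2).ax x ∉ s.d.Y) := by
  rintro x (h | h | h | h) hx
  · exact absurd h hx
  · rw [axA h.2]
    rcases P.s2.ap x h.1 h.2 with k | k
    · exact Or.inl ⟨Or.inl k.1, iX (dLI P F (P.s2.new_I k.1 k.2))⟩
    · exact Or.inr ⟨Or.inl ⟨Or.inl k.1, F.a2 x h.1 h.2⟩, iY (dLI P F (newY P.s2 k.1 k.2))⟩
  · rw [axB (bL P F h.1 h.2.1 h.2.2) h.2.1]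
    rcases P.s1.ap x h.1 h.2.1 with k | k
    · exact Or.inl ⟨Or.inr k.1, iX (dMI (P.s1.new_I k.1 k.2))⟩
    · exact Or.inr ⟨Or.inl ⟨Or.inr k.1, fun hh => h.2.2 ⟨h.1, h.2.1, hh⟩⟩,
        iY (dMI (newY P.s1 k.1 k.2))⟩
  · rw [axC (cL P F h.2) (cM P h.2)]
    exact Or.inr ⟨Or.inr ⟨h.1, rfl⟩, iY (vI P)⟩

/-- a neighbour of a boundary vertex in a region -/
theorem bdX (P : PG H s o1 o2 u0) {x z : W} (hx : x ∈ s.d.X) (e : H.Adj x z) :
    (z ∈ s.Rg 0 → x ∈ s.XL) ∧ (z ∈ s.Rg 1 → x ∈ s.XM) ∧ (z ∈ s.Rg 2 → x = s.p ∨ x = s.p') ∧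
      z ∉ s.Rg 3 := by
  have nI : ∀ {y}, y ∈ s.d.I → x ≠ y := fun hy he => iX hy (he ▸ hx)
  have nY : ∀ {y}, y ∈ s.d.Y → x ≠ y := fun hy he => P.stp.disc.xy hx (he ▸ hy)
  refine ⟨fun hz => ?_, fun hz => ?_, fun hz => ?_, fun hz => ?_⟩
  · rcases P.reg.n0 ⟨z, hz, e⟩ with h | (h | h) | h
    exacts [absurd rfl (nI (rgI h)), h, absurd rfl (nY h.1), absurd rfl (nI (P.stp.ti h))]
  · rcases P.reg.n1 ⟨z, hz, e⟩ with h | (h | h) | h
    exacts [absurd rfl (nI (rgI h)), h, absurd rfl (nY h.1), absurd rfl (nI (P.stp.ti h))]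
  · rcases P.reg.n2 ⟨z, hz, e⟩ with h | h | h | h
    exacts [absurd rfl (nI (rgI h)), Or.inl h, Or.inr h, absurd h (nI (zI P))]
  · rcases P.reg.n3 ⟨z, hz, e⟩ with h | h | h | h | h
    exacts [nI (rgI h) rfl, nY h.1 rfl, nI (vI P) h, nY P.stp.hl h, nY P.stp.hj h]

theorem bdY (P : PG H s o1 o2 u0) {x z : W} (hx : x ∈ s.d.Y) (e : H.Adj x z) :
    (z ∈ s.Rg 0 → x ∈ s.YL) ∧ (z ∈ s.Rg 1 → x ∈ s.YM) ∧ z ∉ s.Rg 2 ∧
      (z ∈ s.Rg 3 → x ∈ s.YN ∨ x = s.ql ∨ x = s.qj) := by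
  have nI : ∀ {y}, y ∈ s.d.I → x ≠ y := fun hy he => iY hy (he ▸ hx)
  have nX : ∀ {y}, y ∈ s.d.X → x ≠ y := fun hy he => P.stp.disc.xy hy (he ▸ hx)
  refine ⟨fun hz => ?_, fun hz => ?_, fun hz => ?_, fun hz => ?_⟩
  · rcases P.reg.n0 ⟨z, hz, e⟩ with h | (h | h) | h
    exacts [absurd rfl (nI (rgI h)), absurd rfl (nX h.1), h, absurd rfl (nI (P.stp.ti h))]
  · rcases P.reg.n1 ⟨z, hz, e⟩ with h | (h | h) | h
    exacts [absurd rfl (nI (rgI h)), absurd rfl (nX h.1), h, absurd rfl (nI (P.stp.ti h))]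
  · rcases P.reg.n2 ⟨z, hz, e⟩ with h | h | h | h
    exacts [nI (rgI h) rfl, nX P.stp.hp h, nX P.stp.hp' h, nI (zI P) h]
  · rcases P.reg.n3 ⟨z, hz, e⟩ with h | h | h | h | h
    exacts [absurd rfl (nI (rgI h)), Or.inl h, absurd h (nI (vI P)), Or.inr (Or.inl h),
      Or.inr (Or.inr h)]

/-- a hidden vertex of the left disc sees only the old outside -/
theorem outA (P : PG H s o1 o2 u0) (F : FG H s o1 o2) {x z : W} (h1 : x ∈ o2.Z)
    (h2 : x ∉ (s.dL o1).Z) (e : H.Adj x z) (hz : z ∈ (s.dL o1).Z) : z ∈ s.d.Z := by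
  have D := P.stp.disc
  obtain ⟨z1, z2, z3, z4, z5⟩ := mL.1 hz
  have zt : z ∉ s.τ := fun hh => (F.tw hh).elim z3 z5
  have lt := P.stp.lt
  have lj := F.lj
  rcases P.dl.old h2 hz e with h | h | h
  · have hx : x ∈ s.d.X := h.1
    have n1 : x ≠ s.p := by rintro rfl; exact P.s2.xz P.s2.px.hb h1
    have l1 : s.d.ρ x ≤ s.d.ρ s.p := h.2
    have l2 := D.px.lt_or hx P.stp.hp n1
    obtain ⟨b0, b1, b2, b3⟩ := bdX P hx e
    rcases cases8 s z with k | k | k | k | k | k | k | k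
    · exact k
    · have l3 : ¬ s.d.ρ z ≤ s.d.ρ s.p := fun hh => z1 ⟨k, hh⟩
      exact absurd ⟨by omega, by omega⟩ (D.px.nb hx k e P.stp.hp)
    · exact absurd (P.reg.r0 x h z k e) z2
    · exact absurd k zt
    · exact absurd k z4
    · have := (b1 k).2
      omega
    · rcases b2 k with r | r
      · exact absurd r n1
      · rw [r] at l1
        omega
    · exact absurd k b3
  · have hx : x ∈ s.d.Y := h.1
    have n1 : x ≠ s.ql := by rintro rfl; exact P.s2.yz F.lY h1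
    have l1 : s.d.ρ x ≤ s.d.ρ s.ql := h.2
    have l2 := D.py.lt_or hx P.stp.hl n1
    obtain ⟨b0, b1, b2, b3⟩ := bdY P hx e
    rcases cases8 s z with k | k | k | k | k | k | k | k
    · exact k
    · have := (P.reg.r1 z ((xLM P.stp k).resolve_left z1) x hx e.symm).2
      omega
    · have l3 : ¬ s.d.ρ z ≤ s.d.ρ s.ql := fun hh => z2 ⟨k, hh⟩
      exact absurd ⟨by omega, by omega⟩ (D.py.nb hx k e P.stp.hl)
    · exact absurd k zt
    · exact absurd k z4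
    · have := (b1 k).2
      omega
    · exact absurd k b2
    · rcases b3 k with r | r | r
      · have := r.2.1
        omega
      · exact absurd r n1
      · rw [r] at l2 l1
        omega
  · exact absurd h1 (P.s2.yz (F.tY h))

/-- a hidden vertex of the right disc that is not on `τ` sees only the old outside -/
theorem outB (P : PG H s o1 o2 u0) (F : FG H s o1 o2) {x z : W} (h1 : x ∈ o1.Z)
    (h2 : x ∉ s.dM.Z) (h3 : x ∉ s.W1 o1) (e : H.Adj x z) (hz : z ∈ s.dM.Z) : z ∈ s.d.Z := by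
  have D := P.stp.disc
  obtain ⟨z1, z2, z3, z4⟩ := mM.1 hz
  have lt := P.stp.lt
  have lj := F.lj
  rcases P.dm.old h2 hz e with h | h | h
  · have hx : x ∈ s.d.X := h.1
    have n1 : x ≠ s.p' := by rintro rfl; exact P.s1.xz P.s1.px.ha h1
    have l1 : s.d.ρ s.p' ≤ s.d.ρ x := h.2
    have l2 := D.px.lt_or hx P.stp.hp' n1
    obtain ⟨b0, b1, b2, b3⟩ := bdX P hx e
    rcases cases8 s z with k | k | k | k | k | k | k | k
    · exact k
    · have l3 : ¬ s.d.ρ s.p' ≤ s.d.ρ z := fun hh => z1 ⟨k, hh⟩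
      exact absurd ⟨by omega, by omega⟩ (D.px.nb k hx e.symm P.stp.hp')
    · exact absurd (P.reg.r1 x h z k e) z3
    · exact absurd k z2
    · have := (b0 k).2
      omega
    · exact absurd k z4
    · rcases b2 k with r | r
      · rw [r] at l1
        omega
      · exact absurd r n1
    · exact absurd k b3
  · rcases F.tw h with k | k
    exacts [absurd h1 (P.s1.yz k.1), absurd k h3]
  · have hx : x ∈ s.d.Y := h.1
    have n1 : x ≠ s.qj := by rintro rfl; exact P.s1.yz F.jY h1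
    have l1 : s.d.ρ s.qj ≤ s.d.ρ x := h.2
    have l2 := D.py.lt_or hx P.stp.hj n1
    obtain ⟨b0, b1, b2, b3⟩ := bdY P hx e
    rcases cases8 s z with k | k | k | k | k | k | k | k
    · exact k
    · have := (P.reg.r0 z ((xLM P.stp k).resolve_right z1) x hx e.symm).2
      omega
    · have l3 : ¬ s.d.ρ s.qj ≤ s.d.ρ z := fun hh => z3 ⟨k, hh⟩
      exact absurd ⟨by omega, by omega⟩ (D.py.nb k hx e.symm P.stp.hj)
    · exact absurd k z2
    · have := (b0 k).2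
      omega
    · exact absurd k z4
    · exact absurd k b2
    · rcases b3 k with r | r | r
      · have := r.2.2
        omega
      · rw [r] at l2 l1
        omega
      · exact absurd r n1

/-- a new vertex of the second path of the right disc that is off `T1` has no neighbour on it -/
theorem offT (P : PG H s o1 o2 u0) (F : FG H s o1 o2) {y t : W} (hy : y ∈ o1.Y)
    (hn : y ∉ s.dM.Y) (hT : y ∉ s.T1 o1) (ht : t ∈ s.T1 o1) : ¬ H.Adj t y := by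
  intro e
  have n1 : y ≠ s.qj := by rintro rfl; exact hn (Or.inr ⟨P.stp.hj, le_rfl⟩)
  have l1 : ¬ o1.ρ y < s.d.ρ s.qj := fun hh => hT ⟨hy, hh⟩
  have l2 := P.s1.py.lt_or hy F.jY n1
  have l3 := F.rj
  have l4 : o1.ρ t < s.d.ρ s.qj := ht.2
  exact P.s1.py.nb ht.1 hy e F.jY ⟨by omega, by omega⟩

theorem nbC (P : PG H s o1 o2 u0) {x z : W} (h : x ∈ s.Rg 3 ∨ x ∈ s.YN) (e : H.Adj x z) :
    z ∈ s.d.Z ∨ (z ∈ s.Rg 3 ∨ z ∈ s.YN) ∨ z = s.v ∨ z = s.ql ∨ z = s.qj := by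
  have D := P.stp.disc
  rcases h with h | h
  · rcases P.reg.n3 ⟨x, h, e.symm⟩ with k | k | k
    exacts [Or.inr (Or.inl (Or.inl k)), Or.inr (Or.inl (Or.inr k)), Or.inr (Or.inr k)]
  · have hx : x ∈ s.d.Y := h.1
    have l1 := h.2.1
    have l2 := h.2.2
    obtain ⟨b0, b1, b2, b3⟩ := bdY P hx e
    rcases cases8 s z with k | k | k | k | k | k | k | k
    · exact Or.inl k
    · rcases xLM P.stp k with r | r
      · have := (P.reg.r0 z r x hx e.symm).2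
        omega
      · have := (P.reg.r1 z r x hx e.symm).2
        omega
    · have a1 := D.py.nb k hx e.symm P.stp.hl
      have a2 := D.py.nb hx k e P.stp.hj
      by_cases r1 : z = s.ql
      · exact Or.inr (Or.inr (Or.inr (Or.inl r1)))
      by_cases r2 : z = s.qj
      · exact Or.inr (Or.inr (Or.inr (Or.inr r2)))
      have a3 := D.py.lt_or k P.stp.hl r1
      have a4 := D.py.lt_or k P.stp.hj r2
      exact Or.inr (Or.inl (Or.inr ⟨k, by omega, by omega⟩))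
    · exact Or.inr (Or.inr (Or.inl (P.stp.ty z k x hx e.symm).1))
    · have := (b0 k).2
      omega
    · have := (b1 k).2
      omega
    · exact absurd k b2
    · exact Or.inr (Or.inl (Or.inl k))

theorem pk (P : PG H s o1 o2 u0) (F : FG H s o1 o2) : ∀ x ∈ (s.fin H o1 o2).Z, x ∉ s.d.Z →
    ∀ z, H.Adj x z → z ∈ s.d.Z ∨
      (z ∈ (s.fin H o1 o2).Z ∧ (s.fin H o1 o2).ax z = (s.fin H o1 o2).ax x) ∨
      z = (s.fin H o1 o2).ax x ∨ (H.Adj z ((s.fin H o1 o2).ax x) ∧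
        ((z ∈ (s.fin H o1 o2).X ∧ (s.fin H o1 o2).ax x ∈ (s.fin H o1 o2).X) ∨
          (z ∈ (s.fin H o1 o2).Y ∧ (s.fin H o1 o2).ax x ∈ (s.fin H o1 o2).Y))) := by
  rintro x (h | h | h | h) hx z e
  · exact absurd h hx
  · by_cases hz : z ∈ (s.dL o1).Z
    · exact Or.inl (outA P F h.1 h.2 e hz)
    rw [axA h.2]
    have aT := F.a2 x h.1 h.2
    rcases P.s2.pk x h.1 h.2 z e with k | k | k | ⟨k, k' | k'⟩
    · exact absurd k hz
    · exact Or.inr (Or.inl ⟨Or.inr (Or.inl ⟨k.1, hz⟩), (axA hz).trans k.2⟩)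
    · exact Or.inr (Or.inr (Or.inl k))
    · exact Or.inr (Or.inr (Or.inr ⟨k, Or.inl ⟨Or.inl k'.1, Or.inl k'.2⟩⟩))
    · refine Or.inr (Or.inr (Or.inr ⟨k, Or.inr ⟨Or.inl ⟨Or.inl k'.1, fun hT => ?_⟩,
        Or.inl ⟨Or.inl k'.2, aT⟩⟩⟩))
      have nw : o2.ax x ∉ (s.dL o1).Y :=
        ((P.s2.ap x h.1 h.2).resolve_left fun hh => P.s2.xy hh.1 k'.2).2
      have n1 : o2.ax x ≠ s.ql := fun r => nw (r ▸ Or.inl ⟨P.stp.hl, le_rfl⟩)
      have l1 := F.ry _ k'.2 aT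
      have l2 := P.s2.py.lt_or k'.2 F.lY n1
      have l3 := F.rl
      have l4 := F.rt z hT
      have l5 : o1.ρ z < s.d.ρ s.qj := hT.2
      exact P.s2.py.nb k'.2 k'.1 k.symm F.lY ⟨by omega, by omega⟩
  · by_cases hz : z ∈ s.dM.Z
    · exact Or.inl (outB P F h.1 h.2.1 h.2.2 e hz)
    rw [axB (bL P F h.1 h.2.1 h.2.2) h.2.1]
    have aT : o1.ax x ∉ s.T1 o1 := fun hh => h.2.2 ⟨h.1, h.2.1, hh⟩
    rcases P.s1.pk x h.1 h.2.1 z e with k | k | k | ⟨k, k' | k'⟩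
    · exact absurd k hz
    · have zw : z ∉ s.W1 o1 := fun hh => aT (k.2 ▸ hh.2.2)
      exact Or.inr (Or.inl ⟨Or.inr (Or.inr (Or.inl ⟨k.1, hz, zw⟩)),
        (axB (bL P F k.1 hz zw) hz).trans k.2⟩)
    · exact Or.inr (Or.inr (Or.inl k))
    · exact Or.inr (Or.inr (Or.inr ⟨k, Or.inl ⟨Or.inr k'.1, Or.inr k'.2⟩⟩))
    · refine Or.inr (Or.inr (Or.inr ⟨k, Or.inr ⟨Or.inl ⟨Or.inr k'.1, fun hT => ?_⟩,
        Or.inl ⟨Or.inr k'.2, aT⟩⟩⟩))
      have nw : o1.ax x ∉ s.dM.Y :=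
        ((P.s1.ap x h.1 h.2.1).resolve_left fun hh => P.s1.xy hh.1 k'.2).2
      exact offT P F k'.2 nw aT hT k
  · rw [axC (cL P F h.2) (cM P h.2)]
    have vY : s.v ∈ (s.fin H o1 o2).Y := Or.inr ⟨h.1, rfl⟩
    rcases nbC P h.2 e with k | k | k | k | k
    · exact Or.inl k
    · exact Or.inr (Or.inl ⟨Or.inr (Or.inr (Or.inr ⟨h.1, k⟩)), axC (cL P F k) (cM P k)⟩)
    · exact Or.inr (Or.inr (Or.inl k))
    · rw [k]
      exact Or.inr (Or.inr (Or.inr ⟨P.stp.vl.symm, Or.inr ⟨Or.inl ⟨Or.inl F.lY,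
        fun hh => iY (tauI P (F.tI hh)) P.stp.hl⟩, vY⟩⟩))
    · rw [k]
      exact Or.inr (Or.inr (Or.inr ⟨P.stp.vj.symm, Or.inr ⟨Or.inl ⟨Or.inr F.jY,
        fun hh => iY (tauI P (F.tI hh)) P.stp.hj⟩, vY⟩⟩))

theorem dxy (P : PG H s o1 o2 u0) (F : FG H s o1 o2) :
    Disjoint (s.fin H o1 o2).X (s.fin H o1 o2).Y := by
  refine Set.disjoint_left.2 ?_
  rintro x (h | h) (⟨k | k, kT⟩ | k)
  · exact P.s2.xy h k
  · rcases F.ov x (fun hh => P.s2.xz h (P.s2.zz hh)) (fun hh => P.s1.yz k (P.s1.zz hh)) with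
      r | r | r
    exacts [kT r, P.s1.yz k r.1, P.s2.xy h (r.1 ▸ F.lY)]
  · exact P.s2.xy h (k.2 ▸ F.tY (F.vT k.1))
  · rcases F.ov x (fun hh => P.s2.yz k (P.s2.zz hh)) (fun hh => P.s1.xz h (P.s1.zz hh)) with
      r | r | r
    exacts [kT r, P.s1.xz h r.1, P.s1.xy h (r.2 ▸ F.jY)]
  · exact P.s1.xy h k
  · exact P.s1.xy h (k.2 ▸ (F.vT k.1).1)

theorem dz (P : PG H s o1 o2 u0) (F : FG H s o1 o2) :
    Disjoint (s.fin H o1 o2).Z ((s.fin H o1 o2).X ∪ (s.fin H o1 o2).Y) := by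
  have both : ∀ x, x ∈ o2.Z → x ∈ o1.Z → x ∉ (s.fin H o1 o2).X ∪ (s.fin H o1 o2).Y := by
    rintro x h2 h1 ((k | k) | ⟨k | k, _⟩ | k)
    exacts [P.s2.xz k h2, P.s1.xz k h1, P.s2.yz k h2, P.s1.yz k h1, P.s1.yz (k.2 ▸ (F.vT k.1).1) h1]
  refine Set.disjoint_left.2 ?_
  rintro x (h | h | h | h)
  · exact both x (P.s2.zz (zL P F h)) (P.s1.zz (zM P h))
  · have key : x ∉ o1.Z → False := fun h1 => by
      rcases F.ov x h.2 (fun hh => h1 (P.s1.zz hh)) with r | r | r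
      exacts [P.s2.yz (F.tY r) h.1, h1 r.1, P.s2.yz (r.1 ▸ F.lY) h.1]
    by_cases h1 : x ∈ o1.Z
    · exact both x h.1 h1
    · exact (key h1).elim
  · exact both x (P.s2.zz (bL P F h.1 h.2.1 h.2.2)) h.1
  · exact both x (P.s2.zz (cL P F h.2)) (P.s1.zz (cM P h.2))

theorem tz (P : PG H s o1 o2 u0) (F : FG H s o1 o2) :
    (s.fin H o1 o2).X ∪ (s.fin H o1 o2).Y ⊆ Nb H (s.fin H o1 o2).Z := by
  have old : ∀ x, x ∈ s.d.X ∪ s.d.Y → x ∈ Nb H (s.fin H o1 o2).Z := fun x hx => by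
    obtain ⟨z, hz, e⟩ := P.stp.disc.tz hx
    exact ⟨z, Or.inl hz, e⟩
  have nA : ∀ x, x ∈ o2.X ∪ o2.Y → x ∈ (s.dL o1).I → x ∈ Nb H (s.fin H o1 o2).Z :=
    fun x hx hI => by
      obtain ⟨z, hz, e⟩ := P.s2.disc.tz hx
      exact ⟨z, Or.inr (Or.inl ⟨hz, P.dl.iz hI e⟩), e⟩
  rintro x ((h | h) | ⟨h | h, hT⟩ | h)
  · by_cases k : x ∈ (s.dL o1).X
    · exact old x (Or.inl k.1)
    · exact nA x (Or.inl h) (P.s2.new_I h k)
  · by_cases k : x ∈ s.dM.X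
    · exact old x (Or.inl k.1)
    · have hI := P.s1.new_I h k
      obtain ⟨z, hz, e⟩ := P.s1.disc.tz (Or.inl h)
      refine ⟨z, Or.inr (Or.inr (Or.inl ⟨hz, P.dm.iz hI e, fun hw => ?_⟩)), e⟩
      have aY : o1.ax z ∈ o1.Y := hw.2.2.1
      rcases P.s1.pk z hz hw.2.1 x e.symm with r | r | r | ⟨_, r | r⟩
      exacts [P.s1.xz h (P.s1.zz r), P.s1.xz h r.1, P.s1.xy h (r ▸ aY), P.s1.xy r.2 aY,
        P.s1.xy h r.1]
  · by_cases k : x ∈ (s.dL o1).Y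
    · exact old x (Or.inr (k.resolve_right hT).1)
    · exact nA x (Or.inr h) (newY P.s2 h k)
  · by_cases k : x ∈ s.dM.Y
    · rcases k with k | k
      · rcases F.tw k with r | r
        exacts [absurd r hT, absurd r.1 (P.s1.yz h)]
      · exact old x (Or.inr k.1)
    · have hI := newY P.s1 h k
      obtain ⟨z, hz, e⟩ := P.s1.disc.tz (Or.inr h)
      refine ⟨z, Or.inr (Or.inr (Or.inl ⟨hz, P.dm.iz hI e, fun hw => ?_⟩)), e⟩
      have aT : o1.ax z ∈ s.T1 o1 := hw.2.2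
      rcases P.s1.pk z hz hw.2.1 x e.symm with r | r | r | ⟨r, _⟩
      exacts [P.s1.yz h (P.s1.zz r), P.s1.yz h r.1, hT (r ▸ aT), offT P F h k hT aT r.symm]
  · obtain ⟨z, hz, e⟩ := P.reg.nv h.1
    exact ⟨z, Or.inr (Or.inr (Or.inr ⟨h.1, hz⟩)), h.2 ▸ e⟩

theorem zc (P : PG H s o1 o2 u0) (F : FG H s o1 o2) : IsConn H (s.fin H o1 o2).Z := by
  have D := P.stp.disc
  have old : ∀ x y, Conn H (s.fin H o1 o2).Z x y → y ∈ (s.fin H o1 o2).Z → y ∈ s.d.X ∪ s.d.Y →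
      ∃ w ∈ s.d.Z, Conn H (s.fin H o1 o2).Z x w := fun x y hc hy hy' => by
    obtain ⟨z, hz, e⟩ := D.tz hy'
    exact ⟨z, hz, hc.snoc hy (Or.inl hz) e⟩
  refine isConn_base D.zc (fun _ h => Or.inl h) ?_
  rintro x (h | h | h | h)
  · exact ⟨x, h, Conn.rfl'⟩
  · obtain ⟨y, hc, hy, k⟩ := P.s2.pocket P.dl h.1 h.2
    have sub : Pk (s.dL o1) o2 (o2.ax x) ⊆ (s.fin H o1 o2).Z :=
      fun w hw => Or.inr (Or.inl ⟨hw.1, hw.2.1⟩)
    refine old x y (hc.up sub) (sub hy) ?_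
    rcases k with k | k | k
    exacts [Or.inl k.1, Or.inr k.1, absurd hy.1 (P.s2.yz (F.tY k))]
  · obtain ⟨y, hc, hy, k⟩ := P.s1.pocket P.dm h.1 h.2.1
    have aT : o1.ax x ∉ s.T1 o1 := fun hh => h.2.2 ⟨h.1, h.2.1, hh⟩
    have nw : ∀ w ∈ Pk s.dM o1 (o1.ax x), w ∉ s.W1 o1 := fun w hw hh => aT (hw.2.2 ▸ hh.2.2)
    have sub : Pk s.dM o1 (o1.ax x) ⊆ (s.fin H o1 o2).Z :=
      fun w hw => Or.inr (Or.inr (Or.inl ⟨hw.1, hw.2.1, nw w hw⟩))
    refine old x y (hc.up sub) (sub hy) ?_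
    rcases k with k | k | k
    · exact Or.inl k.1
    · rcases F.tw k with r | r
      exacts [absurd hy.1 (P.s1.yz r.1), absurd r (nw y hy)]
    · exact Or.inr k.1
  · have sub : s.Rg 3 ⊆ (s.fin H o1 o2).Z := fun w hw => Or.inr (Or.inr (Or.inr ⟨h.1, Or.inl hw⟩))
    have sub' : s.YN ⊆ (s.fin H o1 o2).Z := fun w hw => Or.inr (Or.inr (Or.inr ⟨h.1, Or.inr hw⟩))
    rcases h.2 with k | k
    · obtain ⟨y, y', q, q', c1, c2, e1, e2, hq, hq', e3, l1, l2, l3⟩ := P.reg.c3 x k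
      by_cases r1 : q = s.ql
      · by_cases r2 : q' = s.qj
        · exact absurd (r1 ▸ r2 ▸ e3) h.1.2
        · have := D.py.lt_or hq' P.stp.hj r2
          have n : q' ∈ s.YN := ⟨hq', by omega, by omega⟩
          exact old x q' ((c2.up sub).snoc (sub (c2.mem k)) (sub' n) e2) (sub' n) (Or.inr hq')
      · have := D.py.lt_or hq P.stp.hl r1
        have n : q ∈ s.YN := ⟨hq, by omega, by omega⟩
        exact old x q ((c1.up sub).snoc (sub (c1.mem k)) (sub' n) e1) (sub' n) (Or.inr hq)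
    · exact old x x Conn.rfl' (sub' k) (Or.inr k.1)

end G5

open G5 in
/-- The shape of the final output; the strict set consists of edges with both ends on the new
paths. -/
theorem PG.shp {W : Type} {H : SimpleGraph W} {s : SD W} {o1 o2 : OD W} {u0 : W}
    (P : PG H s o1 o2 u0) {S : Set (Sym2 W)}
    (hS : ∀ e ∈ S, ∀ x ∈ e, x ∈ (s.fin H o1 o2).X ∪ (s.fin H o1 o2).Y) :
    Shp H s.d S (s.fin H o1 o2) := by
  have F := P.fg
  have Q := G4.finP P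
  have D := P.stp.disc
  have sub : (s.d.upd (s.fin H o1 o2)).I ⊆ s.d.I := fun x hx => by
    have hx' : x ∉ (s.fin H o1 o2).Z ∧ x ∉ (s.fin H o1 o2).X ∧ x ∉ (s.fin H o1 o2).Y :=
      DD.mem_I.1 hx
    exact DD.mem_I.2 ⟨fun hz => hx'.1 (Or.inl hz), fun hh => (xx P F hh).elim hx'.2.1 hx'.1,
      fun hh => (yy P F hh).elim hx'.2.2 hx'.1⟩
  refine ⟨⟨Q.px, Q.py, dxy P F, D.ra, D.rb, zc P F, dz P F, ?_, tz P F, D.fin.subset sub,
    D.nj.mono sub⟩, fun _ h => Or.inl h, xx P F, yy P F, Q.rx, Q.ry, Q.nx, Q.ny, ap P F,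
    pk P F, ?_⟩
  · rintro x ⟨z, hz, e⟩
    change x ∈ (s.fin H o1 o2).Z ∪ ((s.fin H o1 o2).X ∪ (s.fin H o1 o2).Y)
    by_cases k : z ∈ s.d.Z
    · rcases D.cl ⟨z, k, e⟩ with r | r | r
      · exact Or.inl (Or.inl r)
      · exact (xx P F r).elim (fun h => Or.inr (Or.inl h)) Or.inl
      · exact (yy P F r).elim (fun h => Or.inr (Or.inr h)) Or.inl
    · rcases pk P F z hz k x e.symm with r | r | r | ⟨_, r | r⟩
      · exact Or.inl (Or.inl r)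
      · exact Or.inl r.1
      · rw [r]
        exact Or.inr ((ap P F z hz k).imp And.left And.left)
      · exact Or.inr (Or.inl r.1)
      · exact Or.inr (Or.inr r.1)
  · intro e he x hx hz
    exact Set.disjoint_left.1 (dz P F) hz (hS e he x hx)

end Pool.Agent.P.MP_08fd93_co.FU
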