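import Pool.Agent.P.MP_08fd93_co.FU.G5
import Pool.Agent.P.MP_08fd93_co.OV.PkFinC

/-! General main step, part 6: the extension property of the final output. -/

set_option autoImplicit false

namespace Pool.Agent.P.MP_08fd93_co.FU

open OV

namespace G6

open OV.PkFinCP (rec_empty rec_union pth_tri two_col succ_ex pe_iff le_iff mem_I upd_I colour_v
  sl_l)

variable {W : Type} {H : SimpleGraph W} {s : SD W} {o1 o2 : OD W} {u0 : W}
  {S S1 S2 : Set (Sym2 W)}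

/-- The local facts that do not depend on colours. -/
structure Geo (H : SimpleGraph W) (s : SD W) (o1 o2 : OD W) (u0 : W) : Prop where
  tI : ∀ t ∈ s.T1 o1, t ∈ s.d.I
  imR : ∀ x ∈ (s.dM.upd o1).I, x ∈ s.Rg 1 ∧ x ∉ s.W1 o1 ∧ x ∉ s.T1 o1
  ilR : ∀ x ∈ ((s.dL o1).upd o2).I, (x ∈ s.Rg 0 ∨ x ∈ s.W1 o1) ∧ x ∉ s.T1 o1
  lT : s.ql ∉ s.T1 o1
  jT : s.qj ∉ s.T1 o1
  vj : ∀ x ∈ s.T1 o1, ∀ y ∈ o1.Y, y ∉ s.T1 o1 → H.Adj x y → x = u0 ∧ y = s.qj
  vl : ∀ x ∈ s.T1 o1, ∀ y ∈ o2.Y, y ∉ s.T1 o1 → H.Adj x y → x = u0 ∧ y = s.ql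

theorem geo (hP : PG H s o1 o2 u0) : Geo H s o1 o2 u0 := by
  have hF := hP.fg
  have tI : ∀ t ∈ s.T1 o1, t ∈ s.d.I := fun t ht =>
    (hF.tI ht).elim (fun h => hP.stp.ti h) fun h => h.1
  have lT : s.ql ∉ s.T1 o1 := fun h => (mem_I.mp (tI _ h)).2.2 hP.stp.hl
  have jT : s.qj ∉ s.T1 o1 := fun h => (mem_I.mp (tI _ h)).2.2 hP.stp.hj
  have p1 : Pth H o1.Y o1.ρ s.z s.d.b' := hP.s1.disc.py
  have p2 : Pth H o2.Y o2.ρ s.d.a' s.z := hP.s2.disc.py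
  refine ⟨tI, ?_, ?_, lT, jT, ?_, ?_⟩
  · intro x hx
    obtain ⟨h1, h2, -, h4⟩ := upd_I hP.s1 hx
    obtain ⟨k1, k2, k3⟩ := mem_I.mp h1
    refine ⟨?_, fun h => h2 h.1, fun h => h4 h.1⟩
    by_contra k4
    apply k1
    rintro ((k | k) | k)
    · exact k2 k
    · exact k3 k
    · exact k4 k
  · intro x hx
    obtain ⟨h1, -, -, h4⟩ := upd_I hP.s2 hx
    obtain ⟨k1, k2, k3⟩ := mem_I.mp h1
    refine ⟨?_, fun h => h4 (hF.tY h)⟩
    by_contra k4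
    apply k1
    rintro ((k | k) | k)
    · exact k2 k
    · exact k3 k
    · exact k4 k
  · intro x hx y hy hyT hadj
    have e := G4.vB hP hy hyT hx hadj
    exact ⟨hP.toPA.jeq hx (e ▸ hadj), e⟩
  · intro x hx y hy hyT hadj
    have e := G4.vA hP hy hyT hx hadj.symm
    refine ⟨?_, e⟩
    have h1 := hF.rt x hx
    have h2 := hF.rt _ hP.uT
    have h3 := hx.2
    have h4 := hP.uT.2
    have h5 := hF.rl
    exact p2.up_eq hF.lY (hF.tY hx) (hF.tY hP.uT) (e ▸ hadj.symm) hP.toPA.ul.symm (by omega)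
      (by omega)

theorem le_disj (hP : PG H s o1 o2 u0) (hF : FG H s o1 o2)
    (hG : Geo H s o1 o2 u0) (hs : s.SL H o1 ⊆ S2) {u w : W} (h1 : s(u, w) ∈ LE H s.dM S1 o1)
    (h2 : s(u, w) ∈ LE H (s.dL o1) S2 o2) : False := by
  obtain ⟨hadj, a1, -⟩ := le_iff.mp h1
  obtain ⟨-, a2, b2⟩ := le_iff.mp h2
  replace b2 : s(u, w) ∉ s.SL H o1 := fun k => b2 (hs k)
  have key : ∀ x, ((x ∈ s.dM.X ∧ x ∈ o1.X) ∨ (x ∈ s.dM.Y ∧ x ∈ o1.Y)) →
      (x ∈ (s.dL o1).X ∨ x ∈ (s.dL o1).Y) → (x ∈ s.T1 o1 ∧ x ∈ s.τ) ∨ x = s.ql := by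
    intro x k1 k2
    have m1 : x ∉ s.dM.Z := fun h =>
      Set.disjoint_left.mp hP.dm.dz h (k1.elim (fun k => Or.inl k.1) fun k => Or.inr k.1)
    have m2 : x ∉ (s.dL o1).Z := fun h => Set.disjoint_left.mp hP.dl.dz h k2
    have m3 : x ∉ o1.Z := fun h =>
      Set.disjoint_left.mp hP.s1.disc.dz h (k1.elim (fun k => Or.inl k.2) fun k => Or.inr k.2)
    rcases hF.ov x m2 m1 with h | h | h
    · have hI := mem_I.mp (hG.tI x h)
      rcases k1 with ⟨k, -⟩ | ⟨k | k, -⟩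
      · exact (hI.2.1 k.1).elim
      · exact Or.inl ⟨h, k⟩
      · exact (hI.2.2 k.1).elim
    · exact (m3 h.1).elim
    · exact Or.inr h.1
  have ku := key u (by tauto) (by tauto)
  have kw := key w (by tauto) (by tauto)
  rcases ku with ku | ku <;> rcases kw with kw | kw
  · rcases pth_tri hP.s1.disc.py ku.1.1 kw.1.1 hadj with h | h
    · exact b2 ⟨u, ku.1, w, hadj, rfl, Or.inr ⟨kw.1, kw.2, h⟩⟩
    · exact b2 ⟨w, kw.1, u, hadj.symm, Sym2.eq_swap, Or.inr ⟨ku.1, ku.2, h⟩⟩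
  · subst kw
    exact b2 (sl_l ku.1 hadj)
  · subst ku
    exact b2 (Sym2.eq_swap ▸ sl_l kw.1 hadj.symm)
  · exact hadj.ne (ku.trans kw.symm)

theorem vj_not (hP : PG H s o1 o2 u0) (hF : FG H s o1 o2) (hG : Geo H s o1 o2 u0)
    (hs : s.SL H o1 ⊆ S2) : s(u0, s.qj) ∉ LE H (s.dL o1) S2 o2 := by
  intro h
  obtain ⟨hadj, a2, b2⟩ := le_iff.mp h
  have hj := hP.stp.hj
  rcases a2 with ⟨-, -, k, -⟩ | ⟨-, -, k | k, -⟩
  · exact Set.disjoint_left.mp hP.stp.disc.dxy k.1 hj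
  · have e : s.qj = s.ql :=
      hP.stp.disc.py.inj _ hj _ hP.stp.hl (le_antisymm k.2 hF.lj)
    rw [e] at b2 hadj
    exact b2 (hs (sl_l hP.uT hadj))
  · exact hG.jT k

/-- an old edge does not lie in both discs -/
theorem not_both (hP : PG H s o1 o2 u0) (hF : FG H s o1 o2) {u w : W} (hadj : H.Adj u w)
    (hu : u ∈ s.d.X ∨ u ∈ s.d.Y) (hw : w ∈ s.d.X ∨ w ∈ s.d.Y) (a1 : u ∉ o1.Z) (a2 : w ∉ o1.Z)
    (b1 : u ∉ o2.Z) (b2 : w ∉ o2.Z) : False := by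
  have key : ∀ x, x ∈ s.d.X ∨ x ∈ s.d.Y → x ∉ o1.Z → x ∉ o2.Z → x = s.ql := by
    intro x hx k1 k2
    rcases hF.ov x (fun k => k2 (hP.s2.zz k)) (fun k => k1 (hP.s1.zz k)) with r | r | r
    · have := mem_I.mp (hP.toPA.T1I r)
      exact (hx.elim this.2.1 this.2.2).elim
    · exact (k1 r.1).elim
    · exact r.1
  exact hadj.ne ((key u hu a1 b1).trans (key w hw a2 b2).symm)

theorem lj_not (hP : PG H s o1 o2 u0) (hF : FG H s o1 o2)
    (hG : Geo H s o1 o2 u0) (hne : s.ql ≠ s.qj) : s(s.ql, s.qj) ∉ LE H s.dM S1 o1 ∧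
      s(s.ql, s.qj) ∉ LE H (s.dL o1) S2 o2 := by
  have hj := hP.stp.hj
  have hl := hP.stp.hl
  constructor
  · intro h
    obtain ⟨-, a2, -⟩ := le_iff.mp h
    rcases a2 with ⟨k, -⟩ | ⟨k | k, -⟩
    · exact Set.disjoint_left.mp hP.stp.disc.dxy k.1 hl
    · exact (mem_I.mp (hP.stp.ti k)).2.2 hl
    · exact hne (hP.stp.disc.py.inj _ hl _ hj (le_antisymm hF.lj k.2))
  · intro h
    obtain ⟨-, a2, -⟩ := le_iff.mp h
    rcases a2 with ⟨-, -, k, -⟩ | ⟨-, -, k | k, -⟩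
    · exact Set.disjoint_left.mp hP.stp.disc.dxy k.1 hj
    · exact hne (hP.stp.disc.py.inj _ hl _ hj (le_antisymm hF.lj k.2))
    · exact hG.jT k

/-- Edges to be paid in the two discs are edges of the new path or edges to be paid in the
final disc. -/
theorem le_sub (hP : PG H s o1 o2 u0) (hF : FG H s o1 o2) (hG : Geo H s o1 o2 u0)
    (hs : s.SL H o1 ⊆ S2) (t1 : Shp H s.dM S1 o1) (t2 : Shp H (s.dL o1) S2 o2)
    (hS : ∀ e ∈ S, e = s(s.p, s.p') ∨ e ∈ S1 ∨ e ∈ S2) {u w : W}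
    (h : s(u, w) ∈ LE H s.dM S1 o1 ∨ s(u, w) ∈ LE H (s.dL o1) S2 o2) :
    (H.Adj u w ∧ u ∈ s.T1 o1 ∧ w ∈ s.T1 o1) ∨ (u = u0 ∧ w = s.qj) ∨ (w = u0 ∧ u = s.qj) ∨
      s(u, w) ∈ LE H s.d S (s.fin H o1 o2) := by
  have hlt := hP.stp.lt
  have nY : ∀ x y, x ∈ s.d.Y → s(x, y) ≠ s(s.p, s.p') := by
    intro x y hx e
    rcases Sym2.eq_iff.mp e with ⟨rfl, -⟩ | ⟨rfl, -⟩
    · exact Set.disjoint_left.mp hP.stp.disc.dxy hP.stp.hp hx
    · exact Set.disjoint_left.mp hP.stp.disc.dxy hP.stp.hp' hx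
  rcases h with h | h
  · obtain ⟨hadj, a, b⟩ := le_iff.mp h
    have n2 : (u ∈ s.d.X ∨ u ∈ s.d.Y) → (w ∈ s.d.X ∨ w ∈ s.d.Y) → s(u, w) ∉ S2 := by
      intro hu hw k
      refine not_both hP hF hadj hu hw ?_ ?_ (t2.st _ k _ (Sym2.mem_mk_left _ _))
        (t2.st _ k _ (Sym2.mem_mk_right _ _))
      · exact a.elim (fun q => t1.xz q.2.1) fun q => t1.yz q.2.1
      · exact a.elim (fun q => t1.xz q.2.2.2) fun q => t1.yz q.2.2.2
    rcases a with ⟨k1, k2, k3, k4⟩ | ⟨k1, k2, k3, k4⟩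
    · refine Or.inr (Or.inr (Or.inr
        (le_iff.mpr ⟨hadj, Or.inl ⟨k1.1, Or.inr k2, k3.1, Or.inr k4⟩, fun e => ?_⟩)))
      rcases hS _ e with e | e | e
      · have m1 : s.d.ρ s.p' ≤ s.d.ρ u := k1.2
        have m2 : s.d.ρ s.p' ≤ s.d.ρ w := k3.2
        rcases Sym2.eq_iff.mp e with ⟨rfl, -⟩ | ⟨-, rfl⟩ <;> omega
      · exact b e
      · exact n2 (Or.inl k1.1) (Or.inl k3.1) e
    · have old : ∀ x, x ∈ s.dM.Y → x ∈ o1.Y → x ∉ s.T1 o1 → x ∈ s.d.Y := by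
        rintro x (k | k) k' k''
        · exact absurd (hP.toPA.tauT k k') k''
        · exact k.1
      by_cases hu : u ∈ s.T1 o1 <;> by_cases hw : w ∈ s.T1 o1
      · exact Or.inl ⟨hadj, hu, hw⟩
      · exact Or.inr (Or.inl (hG.vj u hu w k4 hw hadj))
      · exact Or.inr (Or.inr (Or.inl (hG.vj w hw u k2 hu hadj.symm)))
      · refine Or.inr (Or.inr (Or.inr (le_iff.mpr ⟨hadj, Or.inr ⟨old u k1 k2 hu,
          Or.inl ⟨Or.inr k2, hu⟩, old w k3 k4 hw, Or.inl ⟨Or.inr k4, hw⟩⟩, fun e => ?_⟩)))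
        rcases hS _ e with e | e | e
        · exact nY _ _ (old u k1 k2 hu) e
        · exact b e
        · exact n2 (Or.inr (old u k1 k2 hu)) (Or.inr (old w k3 k4 hw)) e
  · obtain ⟨hadj, a, b⟩ := le_iff.mp h
    have n1 : (u ∈ s.d.X ∨ u ∈ s.d.Y) → (w ∈ s.d.X ∨ w ∈ s.d.Y) → s(u, w) ∉ S1 := by
      intro hu hw k
      refine not_both hP hF hadj hu hw (t1.st _ k _ (Sym2.mem_mk_left _ _))
        (t1.st _ k _ (Sym2.mem_mk_right _ _)) ?_ ?_
      · exact a.elim (fun q => t2.xz q.2.1) fun q => t2.yz q.2.1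
      · exact a.elim (fun q => t2.xz q.2.2.2) fun q => t2.yz q.2.2.2
    rcases a with ⟨k1, k2, k3, k4⟩ | ⟨k1, k2, k3, k4⟩
    · refine Or.inr (Or.inr (Or.inr
        (le_iff.mpr ⟨hadj, Or.inl ⟨k1.1, Or.inl k2, k3.1, Or.inl k4⟩, fun e => ?_⟩)))
      rcases hS _ e with e | e | e
      · have m1 : s.d.ρ u ≤ s.d.ρ s.p := k1.2
        have m2 : s.d.ρ w ≤ s.d.ρ s.p := k3.2
        rcases Sym2.eq_iff.mp e with ⟨-, rfl⟩ | ⟨rfl, -⟩ <;> omega
      · exact n1 (Or.inl k1.1) (Or.inl k3.1) e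
      · exact b e
    · have old : ∀ x, x ∈ (s.dL o1).Y → x ∉ s.T1 o1 → x ∈ s.d.Y := by
        rintro x (k | k) k''
        · exact k.1
        · exact (k'' k).elim
      by_cases hu : u ∈ s.T1 o1 <;> by_cases hw : w ∈ s.T1 o1
      · exact Or.inl ⟨hadj, hu, hw⟩
      · obtain ⟨-, rfl⟩ := hG.vl u hu w k4 hw hadj
        exact (b (hs (sl_l hu hadj))).elim
      · obtain ⟨-, rfl⟩ := hG.vl w hw u k2 hu hadj.symm
        exact (b (hs (Sym2.eq_swap ▸ sl_l hw hadj.symm))).elim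
      · refine Or.inr (Or.inr (Or.inr (le_iff.mpr ⟨hadj, Or.inr ⟨old u k1 hu,
          Or.inl ⟨Or.inl k2, hu⟩, old w k3 hw, Or.inl ⟨Or.inl k4, hw⟩⟩, fun e => ?_⟩)))
        rcases hS _ e with e | e | e
        · exact nY _ _ (old u k1 hu) e
        · exact n1 (Or.inr (old u k1 hu)) (Or.inr (old w k3 hw)) e
        · exact b e

/-- The four recoloured parts are disjoint and do not touch. -/
theorem parts (hP : PG H s o1 o2 u0) (hF : FG H s o1 o2)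
    (hG : Geo H s o1 o2 u0) {A1 A2 : Set W} {c c1 c2 c3 c4 : W → Col}
    (h1 : Rec H (s.dM.upd o1).I A1 c c1) (h2 : Rec H ((s.dL o1).upd o2).I A2 c c2)
    (h3 : Rec H (s.Rg 2) ∅ c c3) (h4 : Rec H {x | x ∈ s.Rg 3 ∧ ¬ s.Long H} ∅ c c4)
    (hA : ∀ x ∈ A1, x ∉ A2) :
    ∃ c', Rec H ((s.dM.upd o1).I ∪ ((s.dL o1).upd o2).I ∪ s.Rg 2 ∪
      {x | x ∈ s.Rg 3 ∧ ¬ s.Long H}) (A1 ∪ A2) c c' := by
  have hR := hP.reg
  have zτ : s.z ∈ s.τ := hP.stp.pt.ha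
  have vτ : s.v ∈ s.τ := hP.stp.pt.hb
  -- description of the first two parts
  have d12 : ∀ x ∈ (s.dM.upd o1).I ∪ ((s.dL o1).upd o2).I, x ∈ s.d.I ∧ x ∉ s.T1 o1 ∧
      x ∉ s.Rg 2 ∧ x ∉ s.Rg 3 := by
    have r1 : ∀ x ∈ s.Rg 1, x ∈ s.d.I ∧ x ∉ s.Rg 2 ∧ x ∉ s.Rg 3 := fun x hx =>
      ⟨hx.1, fun h => absurd (hx.2.2.symm.trans h.2.2) (by decide),
        fun h => absurd (hx.2.2.symm.trans h.2.2) (by decide)⟩
    rintro x (hx | hx)
    · obtain ⟨k1, -, k3⟩ := hG.imR x hx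
      exact ⟨k1.1, k3, (r1 x k1).2⟩
    · obtain ⟨k1 | k1, k3⟩ := hG.ilR x hx
      · exact ⟨k1.1, k3, fun h => absurd (k1.2.2.symm.trans h.2.2) (by decide),
          fun h => absurd (k1.2.2.symm.trans h.2.2) (by decide)⟩
      · rcases hF.wI k1 with k | k
        · exact ⟨hP.stp.ti k, k3, fun h => h.2.1 k, fun h => h.2.1 k⟩
        · exact ⟨k.1, k3, (r1 x k).2⟩
  obtain ⟨e1, g1⟩ := rec_union h1 h2 (by
      intro x hx hx'
      obtain ⟨k1, k2, -⟩ := hG.imR x hx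
      rcases (hG.ilR x hx').1 with k | k
      · exact absurd (k1.2.2.symm.trans k.2.2) (by decide)
      · exact k2 k) (by
      intro x hx y hy hadj
      obtain ⟨k1, k2, -⟩ := hG.imR x hx
      have hI := mem_I.mp k1.1
      rcases (hG.ilR y hy).1 with k | k
      · rcases hR.n0 ⟨y, k, hadj⟩ with m | (m | m) | m
        · exact absurd (k1.2.2.symm.trans m.2.2) (by decide)
        · exact hI.2.1 m.1
        · exact hI.2.2 m.1
        · exact k1.2.1 m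
      · exact hx (hP.s1.disc.cl ⟨y, k.1, hadj⟩)) hA
  obtain ⟨e2, g2⟩ := rec_union g1 h3 (fun x hx => (d12 x hx).2.2.1) (by
      intro x hx y hy hadj
      obtain ⟨k1, k2, k3, -⟩ := d12 x hx
      have hI := mem_I.mp k1
      rcases hR.n2 ⟨y, hy, hadj⟩ with m | rfl | rfl | rfl
      · exact k3 m
      · exact hI.2.1 hP.stp.hp
      · exact hI.2.1 hP.stp.hp'
      · exact k2 hF.zT) (fun _ _ h => h)
  obtain ⟨e3, g3⟩ := rec_union g2 h4 (by
      rintro x (hx | hx) h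
      · exact (d12 x hx).2.2.2 h.1
      · exact absurd (hx.2.2.symm.trans h.1.2.2) (by decide)) (by
      intro x hx y hy hadj
      have k : x ∈ s.d.I ∧ x ≠ s.v ∧ x ∉ s.Rg 3 := by
        rcases hx with hx | hx
        · obtain ⟨k1, k2, -, k4⟩ := d12 x hx
          refine ⟨k1, fun e => k2 (e ▸ hP.toPA.lv (fun e' => ?_) ▸ hP.uT), k4⟩
          obtain ⟨_, _, q, q', -, -, -, -, -, -, -, m1, m2, m3⟩ := hR.c3 y hy.1
          rw [e'] at m1
          omega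
        · exact ⟨hx.1, fun e => hx.2.1 (e ▸ vτ),
            fun h => absurd (hx.2.2.symm.trans h.2.2) (by decide)⟩
      have hI := mem_I.mp k.1
      rcases hR.n3 ⟨y, hy.1, hadj⟩ with m | m | m | rfl | rfl
      · exact k.2.2 m
      · exact hI.2.2 m.1
      · exact k.2.1 m
      · exact hI.2.2 hP.stp.hl
      · exact hI.2.2 hP.stp.hj) (fun _ _ h => h)
  refine ⟨e3, ?_⟩
  simpa using g3

end G6

open G6 OV.PkFinCP in
/-- The general main step. -/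
theorem PG.out {W : Type} {H : SimpleGraph W} {s : SD W} {o1 o2 : OD W} {u0 : W}
    {S S1 S2 : Set (Sym2 W)} (hP : PG H s o1 o2 u0) (h1 : Out H s.dM S1 o1)
    (h2 : Out H (s.dL o1) S2 o2) (hs1 : s.ql ≠ s.qj → s(s.v, s.qj) ∈ S1) (hs : s.SL H o1 ⊆ S2)
    (hSS : ∀ e ∈ S, e = s(s.p, s.p') ∨ ((e ∈ S1 ∨ e ∈ S2) ∧ e ∈ PE H s.d.X ∪ PE H s.d.Y))
    (hT2 : Tri H (s.Rg 2) s.p s.p' s.z) (hT3 : H.Adj s.ql s.qj → Tri H (s.Rg 3) s.v s.ql s.qj) :
    Out H s.d S (s.fin H o1 o2) := by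
  classical
  have hF := hP.fg
  have hG := G6.geo hP
  have hS' : ∀ e ∈ S, e = s(s.p, s.p') ∨ e ∈ S1 ∨ e ∈ S2 := fun e he =>
    (hSS e he).imp_right And.left
  have p'X : s.p' ∈ (s.fin H o1 o2).X := Or.inr hP.s1.px.ha
  have hS : Shp H s.d S (s.fin H o1 o2) := by
    refine hP.shp fun e he x hx => ?_
    rcases hSS e he with rfl | ⟨k, m⟩
    · rcases Sym2.mem_iff.1 hx with rfl | rfl
      exacts [Or.inl (Or.inl hP.s2.px.hb), Or.inl p'X]
    have xo : x ∈ s.d.X ∨ x ∈ s.d.Y := m.imp (fun q => PE.ends q hx) fun q => PE.ends q hx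
    have xT : x ∉ s.T1 o1 := fun q => xo.elim (mem_I.mp (hG.tI x q)).2.1 (mem_I.mp (hG.tI x q)).2.2
    have xI : x ∉ s.d.I := fun q => xo.elim (mem_I.mp q).2.1 (mem_I.mp q).2.2
    rcases k with k | k
    · rcases (s.dM.upd o1).cases x with q | q | q | q
      · exact absurd q (h1.shp.st e k x hx)
      · exact Or.inl (Or.inr q)
      · exact Or.inr (Or.inl ⟨Or.inr q, xT⟩)
      · exact absurd (hG.imR x q).1.1 xI
    · rcases ((s.dL o1).upd o2).cases x with q | q | q | q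
      · exact absurd q (h2.shp.st e k x hx)
      · exact Or.inl (Or.inl q)
      · exact Or.inr (Or.inl ⟨Or.inl q, xT⟩)
      · exact absurd ((hG.ilR x q).1.elim (fun r => r.1) fun r => hP.toPA.W1I r) xI
  refine ⟨hS, ?_⟩
  intro c o hcX hcY hpd
  set L := LE H s.d S (s.fin H o1 o2) with hL
  have hlF : s.ql ∈ (s.fin H o1 o2).Y := Or.inl ⟨Or.inl hF.lY, hG.lT⟩
  have hjF : s.qj ∈ (s.fin H o1 o2).Y := Or.inl ⟨Or.inr hF.jY, hG.jT⟩
  have hlj : H.Adj s.ql s.qj → s(s.ql, s.qj) ∈ L := by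
    intro h
    refine le_iff.mpr ⟨h, Or.inr ⟨hP.stp.hl, hlF, hP.stp.hj, hjF⟩, fun e => ?_⟩
    rcases hS' _ e with e | e | e
    · rcases Sym2.eq_iff.mp e with ⟨e1, -⟩ | ⟨e1, -⟩
      · exact Set.disjoint_left.mp hP.stp.disc.dxy hP.stp.hp (e1 ▸ hP.stp.hl)
      · exact Set.disjoint_left.mp hP.stp.disc.dxy hP.stp.hp' (e1 ▸ hP.stp.hl)
    · rcases hF.ov s.ql (fun k => hP.s2.yz hF.lY (hP.s2.zz k))
        (fun k => h1.shp.st _ e _ (Sym2.mem_mk_left _ _) (hP.s1.zz k)) with r | r | r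
      · exact hG.lT r
      · exact h1.shp.st _ e _ (Sym2.mem_mk_left _ _) r.1
      · exact h.ne r.2
    · rcases hF.ov s.qj (fun k => h2.shp.st _ e _ (Sym2.mem_mk_right _ _) (hP.s2.zz k))
        (fun k => hP.s1.yz hF.jY (hP.s1.zz k)) with r | r | r
      · exact hG.jT r
      · exact hP.s1.yz hF.jY r.1
      · exact h.ne r.1.symm
  obtain ⟨β, kL, kN, kP⟩ := colour_v (s := s) (H := H) hpd
    (fun h => hcY _ (Or.inr ⟨h, rfl⟩)) (hcY _ hlF) (hcY _ hjF) hlj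
  have p1 : Pth H o1.Y o1.ρ s.z s.d.b' := hP.s1.disc.py
  obtain ⟨g, gv, gadj⟩ := two_col (T := s.T1 o1) (v := u0) p1 (fun t ht => ht.1)
    (fun t ht => hP.toPA.um ht) β
  obtain ⟨f, hf⟩ := succ_ex p1
  obtain ⟨c1, c1T, c1N⟩ : ∃ c1 : W → Col, (∀ t ∈ s.T1 o1, c1 t = (true, g t)) ∧
      ∀ x, x ∉ s.T1 o1 → c1 x = c x :=
    ⟨fun x => if x ∈ s.T1 o1 then (true, g x) else c x, fun t ht => if_pos ht,
      fun x hx => if_neg hx⟩
  obtain ⟨o', oT, oL, oN⟩ : ∃ o' : W → W, (∀ t ∈ s.T1 o1, o' t = f t) ∧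
      (∀ x, x ∉ s.T1 o1 → s(x, o x) ∈ L → o' x = o x) ∧
      ∀ x, x ∉ s.T1 o1 → s(x, o x) ∉ L → o' x = x :=
    ⟨fun x => if x ∈ s.T1 o1 then f x else if s(x, o x) ∈ L then o x else x,
      fun t ht => if_pos ht, fun x hx h => (if_neg hx).trans (if_pos h),
      fun x hx h => (if_neg hx).trans (if_neg h)⟩
  have c1v : c1 u0 = (true, β) := by rw [c1T _ hP.uT, gv]
  have ov : o' u0 = s.qj := by
    rw [oT _ hP.uT]
    exact hf _ hP.uT.1 _ hF.jY hP.uj (by rw [hF.rj]; exact hP.uT.2)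
  have LT : ∀ u w, s(u, w) ∈ L → u ∉ s.T1 o1 ∧ w ∉ s.T1 o1 := by
    intro u w h
    obtain ⟨-, a, -⟩ := le_iff.mp h
    constructor
    · intro k
      have m := mem_I.mp (hG.tI _ k)
      exact a.elim (fun h => m.2.1 h.1) fun h => m.2.2 h.1
    · intro k
      have m := mem_I.mp (hG.tI _ k)
      exact a.elim (fun h => m.2.1 h.2.2.1) fun h => m.2.2 h.2.2.1
  have paid : ∀ u w, s(u, w) ∈ LE H s.dM S1 o1 ∨ s(u, w) ∈ LE H (s.dL o1) S2 o2 →
      c1 u = c1 w ∨ o' u = w ∨ o' w = u := by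
    intro u w h
    rcases G6.le_sub hP hF hG hs h1.shp h2.shp hS' h with ⟨hadj, hu, hw⟩ | ⟨rfl, rfl⟩ | ⟨rfl, rfl⟩ | k
    · rcases pth_tri p1 hu.1 hw.1 hadj with m | m
      · exact Or.inr (Or.inl ((oT u hu).trans (hf u hu.1 w hw.1 hadj m)))
      · exact Or.inr (Or.inr ((oT w hw).trans (hf w hw.1 u hu.1 hadj.symm m)))
    · exact Or.inr (Or.inl ov)
    · exact Or.inr (Or.inr ov)
    · obtain ⟨hu, hw⟩ := LT u w k
      rcases hpd u w k with m | m | m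
      · exact Or.inl (by rw [c1N u hu, c1N w hw, m])
      · exact Or.inr (Or.inl ((oL u hu (m ▸ k)).trans m))
      · exact Or.inr (Or.inr ((oL w hw (by rw [m, Sym2.eq_swap]; exact k)).trans m))
  have XT : ∀ x ∈ (s.fin H o1 o2).X, x ∉ s.T1 o1 := by
    rintro x (hx | hx) k
    · exact Set.disjoint_left.mp hP.s2.disc.dxy hx (hF.tY k)
    · exact Set.disjoint_left.mp hP.s1.disc.dxy hx k.1
  have clX : ∀ x ∈ (s.fin H o1 o2).X, (c1 x).1 = false := fun x hx => by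
    rw [c1N x (XT x hx)]
    exact hcX x hx
  have clY : ∀ x, x ∈ o2.Y ∨ x ∈ o1.Y → (c1 x).1 = true := by
    intro x hx
    by_cases k : x ∈ s.T1 o1
    · rw [c1T x k]
    · rw [c1N x k]
      exact hcY x (Or.inl ⟨hx, k⟩)
  obtain ⟨e1, r1⟩ := h1.ext c1 o' (fun x hx => clX x (Or.inr hx)) (fun x hx => clY x (Or.inr hx))
    (fun u w h => paid u w (Or.inl h))
  obtain ⟨e2, r2⟩ := h2.ext c1 o' (fun x hx => clX x (Or.inl hx)) (fun x hx => clY x (Or.inl hx))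
    (fun u w h => paid u w (Or.inr h))
  obtain ⟨e3, r3⟩ := hT2 c1 (by
    rintro ⟨-, k⟩
    have m2 := clX _ p'X
    rw [k, c1T _ hF.zT] at m2
    exact Bool.noConfusion m2)
  obtain ⟨e4, r4⟩ : ∃ e4, Rec H {x | x ∈ s.Rg 3 ∧ ¬ s.Long H} ∅ c1 e4 := by
    by_cases hLong : s.Long H
    · have : {x | x ∈ s.Rg 3 ∧ ¬ s.Long H} = ∅ := by simp [hLong]
      rw [this]
      exact ⟨c1, rec_empty c1⟩
    by_cases hadj : H.Adj s.ql s.qj
    · have : {x | x ∈ s.Rg 3 ∧ ¬ s.Long H} = s.Rg 3 := by simp [hLong]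
      rw [this]
      refine hT3 hadj c1 ?_
      rintro ⟨k1, k2⟩
      rw [← hP.toPA.lv hadj.ne, c1v, c1N _ hG.lT] at k1
      rw [c1N _ hG.lT, c1N _ hG.jT] at k2
      exact kN hLong ⟨k1.symm, k2.symm.trans k1.symm⟩
    · have e : s.ql = s.qj := by
        by_contra h
        exact hLong ⟨h, hadj⟩
      have : {x | x ∈ s.Rg 3 ∧ ¬ s.Long H} = ∅ := by
        ext x
        simp only [Set.mem_ofPred_eq, Set.mem_empty_iff_false, iff_false, not_and]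
        intro hx
        obtain ⟨_, _, q, q', -, -, -, -, -, -, -, k1, k2, k3⟩ := hP.reg.c3 x hx
        rw [e] at k1
        omega
      rw [this]
      exact ⟨c1, rec_empty c1⟩
  obtain ⟨c', R⟩ := G6.parts hP hF hG r1 r2 r3 r4
    (fun x k1 k2 => G6.le_disj hP hF hG hs k1.1 k2.1)
  set M0 := (s.dM.upd o1).I ∪ ((s.dL o1).upd o2).I ∪ s.Rg 2 ∪ {x | x ∈ s.Rg 3 ∧ ¬ s.Long H}
    with hM0
  have mid : ∀ x, x ∈ (s.d.upd (s.fin H o1 o2)).I ↔
      x ∈ M0 ∨ (x ∈ s.T1 o1 ∧ ¬ (s.Long H ∧ x = s.v)) := by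
    intro x
    rw [hF.mid x, hM0]
    constructor
    · rintro (k | k | k | k | k)
      · exact Or.inl (Or.inl (Or.inl (Or.inl k)))
      · exact Or.inl (Or.inl (Or.inl (Or.inr k)))
      · exact Or.inl (Or.inl (Or.inr k))
      · exact Or.inr k
      · exact Or.inl (Or.inr k)
    · rintro ((((k | k) | k) | k) | k)
      · exact Or.inl k
      · exact Or.inr (Or.inl k)
      · exact Or.inr (Or.inr (Or.inl k))
      · exact Or.inr (Or.inr (Or.inr (Or.inr k)))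
      · exact Or.inr (Or.inr (Or.inr (Or.inl k)))
  have TM : ∀ t ∈ s.T1 o1, t ∉ M0 := by
    rintro t ht (((k | k) | k) | k)
    · exact (hG.imR t k).2.2 ht
    · exact (hG.ilR t k).2 ht
    · rcases hF.tI ht with m | m
      · exact k.2.1 m
      · exact absurd (m.2.2.symm.trans k.2.2) (by decide)
    · rcases hF.tI ht with m | m
      · exact k.1.2.1 m
      · exact absurd (m.2.2.symm.trans k.1.2.2) (by decide)
  have vA : s.ql ≠ s.qj →
      u0 ∉ Pay (LE H s.dM S1 o1) c1 o' ∪ Pay (LE H (s.dL o1) S2 o2) c1 o' := by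
    rintro hne (k | k)
    · refine (le_iff.mp (ov ▸ k.1)).2.2 ?_
      rw [hP.toPA.lv hne]
      exact hs1 hne
    · exact G6.vj_not hP hF hG hs (ov ▸ k.1)
  -- a neighbour outside `M0` with the colour of a new vertex
  have nb : ∀ t ∈ s.T1 o1, ¬ (s.Long H ∧ t = s.v) → ∀ y, y ∉ M0 → H.Adj t y → c' y = c' t →
      t = u0 ∧ ¬ s.Long H ∧ (y = s.ql ∨ y = s.qj) ∧ c y = (true, β) := by
    intro t ht hn y hy hadj e
    rw [R.off y hy, R.off t (TM t ht)] at e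
    have yT : y ∉ s.T1 o1 := by
      intro k
      rw [c1T y k, c1T t ht] at e
      exact gadj t ht y k hadj (congrArg Prod.snd e).symm
    have tI := (mid t).mpr (Or.inr ⟨ht, hn⟩)
    have yI : y ∉ (s.d.upd (s.fin H o1 o2)).I := fun k =>
      ((mid y).mp k).elim hy fun m => yT m.1
    have key : t = u0 ∧ (y = s.ql ∨ y = s.qj) := by
      have yc : y ∈ (s.fin H o1 o2).Z ∪ ((s.fin H o1 o2).X ∪ (s.fin H o1 o2).Y) := by
        by_contra k
        exact yI k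
      rcases yc with k | k | ⟨k | k, -⟩ | k
      · exact (tI (hS.disc.cl ⟨y, k, hadj⟩)).elim
      · have m := clX y k
        rw [e, c1T t ht] at m
        exact Bool.noConfusion m
      · obtain ⟨m1, m2⟩ := hG.vl t ht y k yT hadj
        exact ⟨m1, Or.inl m2⟩
      · obtain ⟨m1, m2⟩ := hG.vj t ht y k yT hadj
        exact ⟨m1, Or.inr m2⟩
      · exact (yT (k.2 ▸ hF.vT k.1)).elim
    refine ⟨key.1, fun h => hn ⟨h, key.1.trans (hP.toPA.lv h.1)⟩, key.2, ?_⟩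
    rw [← c1N y yT, e, key.1, c1v]
  refine ⟨c', ?_, ?_, ?_, ?_⟩
  · intro x hx
    rw [mid, not_or] at hx
    rw [R.off x hx.1]
    by_cases k : x ∈ s.T1 o1
    · have m : s.Long H ∧ x = s.v := by
        by_contra m
        exact hx.2 ⟨k, m⟩
      rw [m.2, kL m.1, ← hP.toPA.lv m.1.1, c1v]
    · exact c1N x k
  · intro x hx
    rcases (mid x).mp hx with k | ⟨k, hn⟩
    · exact R.one x k
    intro y z hy hz ey ez
    by_cases my : y ∈ M0 <;> by_cases mz : z ∈ M0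
    · exact R.un x (TM x k) y my z mz hy hz ey ez
    · obtain ⟨m, a1, a2, a3⟩ := nb x k hn z mz hz ez
      exact (vA (kP a1 z a2 a3).2.1 (m ▸ R.al x (TM x k) y my hy ey)).elim
    · obtain ⟨m, a1, a2, a3⟩ := nb x k hn y my hy ey
      exact (vA (kP a1 y a2 a3).2.1 (m ▸ R.al x (TM x k) z mz hz ez)).elim
    · obtain ⟨-, a1, a2, a3⟩ := nb x k hn y my hy ey
      obtain ⟨-, -, b2, b3⟩ := nb x k hn z mz hz ez
      rcases a2 with rfl | rfl <;> rcases b2 with b2 | b2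
      · exact b2.symm
      · exact (kN a1 ⟨a3, b2 ▸ b3⟩).elim
      · exact (kN a1 ⟨b2 ▸ b3, a3⟩).elim
      · exact b2.symm
  · intro x hx y hy hadj e
    rw [mid, not_or] at hx
    rcases (mid y).mp hy with k | ⟨k, hn⟩
    · have m := R.al x hx.1 y k hadj e
      have xT : x ∉ s.T1 o1 := by
        intro k'
        have m' : s.Long H ∧ x = s.v := by
          by_contra m'
          exact hx.2 ⟨k', m'⟩
        exact vA m'.1.1 ((m'.2.trans (hP.toPA.lv m'.1.1).symm) ▸ m)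
      have m2 : c1 (o' x) ≠ c1 x := m.elim (fun h => h.2) fun h => h.2
      by_cases hxL : s(x, o x) ∈ L
      · rw [oL x xT hxL, c1N x xT, c1N _ (LT _ _ hxL).2] at m2
        exact ⟨hxL, m2⟩
      · rw [oN x xT hxL] at m2
        exact (m2 rfl).elim
    · obtain ⟨-, a1, a2, a3⟩ := nb y k hn x hx.1 hadj.symm e.symm
      exact (kP a1 x a2 a3).1
  · intro x hx y hy z hz hxy hxz ey ez
    rw [mid, not_or] at hx
    have mix : ∀ y ∈ M0, ∀ z ∈ s.T1 o1, ¬ (s.Long H ∧ z = s.v) → H.Adj x y → H.Adj x z →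
        c' y = c' x → c' z = c' x → False := by
      intro y hy z hz hn hxy hxz ey ez
      obtain ⟨-, a1, a2, a3⟩ := nb z hz hn x hx.1 hxz.symm ez.symm
      obtain ⟨b1, b2, b3⟩ := kP a1 x a2 a3
      have xT : x ∉ s.T1 o1 := a2.elim (fun h => h ▸ hG.lT) fun h => h ▸ hG.jT
      have b4 : s(x, o' x) = s(s.ql, s.qj) := by rw [oL x xT b1.1, b3]
      rcases R.al x hx.1 y hy hxy ey with m | m
      · exact (G6.lj_not (S1 := S1) (S2 := S2) hP hF hG b2).1 (b4 ▸ m.1)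
      · exact (G6.lj_not (S1 := S1) (S2 := S2) hP hF hG b2).2 (b4 ▸ m.1)
    rcases (mid y).mp hy with ky | ⟨ky, ny⟩ <;> rcases (mid z).mp hz with kz | ⟨kz, nz⟩
    · exact R.un x hx.1 y ky z kz hxy hxz ey ez
    · exact (mix y ky z kz nz hxy hxz ey ez).elim
    · exact (mix z kz y ky ny hxz hxy ez ey).elim
    · exact (nb y ky ny x hx.1 hxy.symm ey.symm).1.trans
        (nb z kz nz x hx.1 hxz.symm ez.symm).1.symm

end Pool.Agent.P.MP_08fd93_co.FU
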