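import Pool.Agent.P.MP_08fd93_co.FU.TP1
import Pool.Agent.P.MP_08fd93_co.OV.PkSpl1
import Pool.Agent.P.MP_08fd93_co.OV.PkSpl2
import Pool.Agent.P.MP_08fd93_co.OV.PkSpl3

/-! The disc theorem with two strict edges in a cell. -/

set_option autoImplicit false

namespace Pool.Agent.P.MP_08fd93_co.FU

open OV OV.PkIndP

/-- Both edges lie on `X` between two rungs with a common end on `Y`. -/
def Fan {W : Type} (H : SimpleGraph W) (d : DD W) (e e' : Sym2 W) : Prop :=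
  ∃ u ∈ d.X, ∃ u' ∈ d.X, ∃ y ∈ d.Y, H.Adj u y ∧ H.Adj u' y ∧
    ∀ x, x ∈ e ∨ x ∈ e' → x ∈ d.X ∧ d.ρ u ≤ d.ρ x ∧ d.ρ x ≤ d.ρ u'

/-- The edge `e = u u'` of `X` has rungs at both ends, `e'` lies on `Y` between them, and no
interior common neighbour of `u`, `u'` has neighbours on `Y` on both sides of `e'`. -/
def Top {W : Type} (H : SimpleGraph W) (d : DD W) (e e' : Sym2 W) : Prop :=
  ∃ u ∈ d.X, ∃ u' ∈ d.X, ∃ v ∈ d.Y, ∃ v' ∈ d.Y, H.Adj u v ∧ H.Adj u' v' ∧ d.ρ u < d.ρ u' ∧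
    e = s(u, u') ∧ (∀ x ∈ e', x ∈ d.Y ∧ d.ρ v ≤ d.ρ x ∧ d.ρ x ≤ d.ρ v') ∧
    ∀ z ∈ d.I, H.Adj z u → H.Adj z u' → ∀ q ∈ d.Y, ∀ q' ∈ d.Y, H.Adj z q → H.Adj z q' →
      ¬ ∀ x ∈ e', d.ρ q ≤ d.ρ x ∧ d.ρ x ≤ d.ρ q'

/-- A rung separates the two edges, in one of the two orders. -/
def SS {W : Type} (H : SimpleGraph W) (d : DD W) (e e' : Sym2 W) : Prop :=
  Sep H d e e' ∨ Sep H d e' e

/-- Allowed pairs of strict edges in one cell. -/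
def Pr {W : Type} (H : SimpleGraph W) (d : DD W) (e e' : Sym2 W) : Prop :=
  Fan H d e e' ∨ Top H d e e' ∨ Top H d e' e

/-- Admissible sets of strict edges with at most two edges in a cell. -/
structure AdmP {W : Type} (H : SimpleGraph W) (d : DD W) (S : Set (Sym2 W)) : Prop where
  sub : S ⊆ PE H d.X ∪ PE H d.Y
  two : ∀ e ∈ S, ∀ e' ∈ S, e ≠ e' → SS H d e e' ∨ Pr H d e e' ∨ Pr H d.swap e e'
  three : ∀ e1 ∈ S, ∀ e2 ∈ S, ∀ e3 ∈ S, e1 ≠ e2 → e1 ≠ e3 → e2 ≠ e3 →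
    SS H d e1 e2 ∨ SS H d e1 e3 ∨ SS H d e2 e3

variable {W : Type} {H : SimpleGraph W}

theorem Fan.symm {d : DD W} {e e' : Sym2 W} (h : Fan H d e e') : Fan H d e' e := by
  obtain ⟨u, hu, u', hu', y, hy, a, a', k⟩ := h
  exact ⟨u, hu, u', hu', y, hy, a, a', fun x hx => k x hx.symm⟩

theorem Pr.symm {d : DD W} {e e' : Sym2 W} (h : Pr H d e e') : Pr H d e' e := by
  rcases h with h | h | h
  exacts [Or.inl h.symm, Or.inr (Or.inr h), Or.inr (Or.inl h)]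

/-- a pair of edges -/
theorem admP_pair {d : DD W} {e e' : Sym2 W} (he : e ∈ PE H d.X ∪ PE H d.Y)
    (he' : e' ∈ PE H d.X ∪ PE H d.Y) (h : SS H d e e' ∨ Pr H d e e' ∨ Pr H d.swap e e') :
    AdmP H d {e, e'} := by
  refine ⟨?_, ?_, ?_⟩
  · rintro _ (rfl | rfl)
    exacts [he, he']
  · rintro _ (rfl | rfl) _ (rfl | rfl) hne
    · exact absurd rfl hne
    · exact h
    · exact h.imp Or.symm (Or.imp Pr.symm Pr.symm)
    · exact absurd rfl hne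
  · rintro _ (rfl | rfl) _ (rfl | rfl) _ (rfl | rfl) h1 h2 h3 <;>
      first | exact absurd rfl h1 | exact absurd rfl h2 | exact absurd rfl h3

theorem Adm.admP {d : DD W} {S : Set (Sym2 W)} (h : Adm H d S) : AdmP H d S :=
  ⟨h.1, fun e he e' he' hne => Or.inl (h.2 e he e' he' hne),
    fun e1 h1 e2 h2 _ _ hne _ _ => Or.inl (h.2 e1 h1 e2 h2 hne)⟩

/-- The theorem below the bound `n`. -/
def TPN (H : SimpleGraph W) (n : ℕ) : Prop :=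
  ∀ (d : DD W) (S : Set (Sym2 W)), Disc H d → AdmP H d S → (d.Zᶜ).ncard < n → ∃ o, Out H d S o

theorem k1_half (hP : Pl H Set.univ) (T : TA H) {s : SD W} (P : Stp H s) (R : Reg H s)
    (dm : Disc H s.dM) (cm : (s.dM.Zᶜ).ncard < (s.d.Zᶜ).ncard) (ih : TPN H (s.d.Zᶜ).ncard)
    (hb : s.p' = s.d.b) {e : Sym2 W} (he : e ∈ PE H s.YM) :
    ∃ o, Out H s.d {s(s.p, s.p'), e} o := by
  have h1 : s(s.v, s.qj) ∈ PE H s.dM.Y :=
    mem_PE.2 ⟨Or.inl P.pt.hb, Or.inr ⟨P.hj, le_rfl⟩, P.vj⟩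
  have h2 : e ∈ PE H s.dM.Y := PE.mono Set.subset_union_right he
  obtain ⟨o1, O1⟩ := ih s.dM {s(s.v, s.qj), e} dm (admP_pair (Or.inr h1) (Or.inr h2)
    (Or.inr (Or.inr (Or.inl ⟨s.z, dm.py.ha, s.d.b', dm.py.hb, s.p', dm.px.ha, P.zp',
      hb ▸ P.disc.rb.symm, fun x hx => by
        have k : x ∈ s.dM.Y := hx.elim (PE.ends h1) (PE.ends h2)
        exact ⟨k, dm.py.lo x k, dm.py.hi x k⟩⟩)))) cm
  refine step_std hP T (pa_of_strict P R dm O1.shp (Or.inl rfl)) O1 (fun _ => Or.inl rfl) ?_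
  rintro e' (rfl | rfl)
  · exact Or.inl rfl
  · exact Or.inr ⟨Or.inr rfl, Or.inr (PE.mono (fun _ k => k.1) he)⟩

/-- Lemma K1 without inner rungs. -/
theorem k1_nr (hP : Pl H Set.univ) (T : TA H) {d : DD W} (D : Disc H d) (hI : d.I.Nonempty)
    (N : NR H d) (ih : TPN H (d.Zᶜ).ncard) (ab : H.Adj d.a d.b) {e : Sym2 W} (he : e ∈ PE H d.Y)
    (hz : ∀ z ∈ d.I, H.Adj z d.a → H.Adj z d.b → ∀ q ∈ d.Y, ∀ q' ∈ d.Y, H.Adj z q → H.Adj z q' →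
      ¬ ∀ x ∈ e, d.ρ q ≤ d.ρ x ∧ d.ρ x ≤ d.ρ q') : ∃ o, Out H d {s(d.a, d.b), e} o := by
  have lt : d.ρ d.a < d.ρ d.b := D.px.lt_hi D.px.ha ab.ne
  obtain ⟨y, hy, y', hy', ay, ly, rfl⟩ := pe_ord D.py he
  obtain ⟨s', g1, g2, g3, P', R', dm', cm'⟩ := step_ex hP (disc_rv D) (p := d.b) (p' := d.a) hI
    (nr_rv N) D.px.hb D.px.ha (by change 0 - _ < 0 - _; omega) ab.symm
  obtain ⟨s, rfl, f2, f3, P, R, dm, cm⟩ := step_ex hP D hI N D.px.ha D.px.hb lt ab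
  by_cases c1 : s.d.ρ s.qj ≤ s.d.ρ y
  · have := k1_half hP T P R dm cm ih f3 (e := s(y, y'))
      (mem_PE.2 ⟨⟨hy, c1⟩, ⟨hy', by omega⟩, ay⟩)
    rwa [f2, f3] at this
  have rr : ∀ x, s'.d.ρ x = 0 - s.d.ρ x := fun x => by rw [g1]; rfl
  have eX : s'.d.X = s.d.X := by rw [g1]; rfl
  have eY : s'.d.Y = s.d.Y := by rw [g1]; rfl
  have eI : s'.d.I = s.d.I := by rw [g1]; rfl
  by_cases c2 : s.d.ρ y' ≤ s.d.ρ s'.qj
  · obtain ⟨o, O⟩ := k1_half hP T P' R' dm' cm' (by rw [g1]; exact ih) (by rw [g3, g1]; rfl)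
      (e := s(y, y')) (mem_PE.2 ⟨⟨eY ▸ hy, by rw [rr, rr]; omega⟩,
        ⟨eY ▸ hy', by rw [rr, rr]; omega⟩, ay⟩)
    rw [g1, g2, g3, Sym2.eq_swap] at O
    exact ⟨_, out_rv O⟩
  exfalso
  have hq : s'.qj ∈ s.d.Y := eY ▸ P'.hj
  have n1 := D.py.nb hy hy' ay hq
  have n2 := D.py.nb hy hy' ay P.hj
  have vI : s'.v ∈ s.d.I := eI ▸ P'.ti P'.pt.hb
  have vb : H.Adj s'.v s.d.b := by
    obtain ⟨x, hx, l, a⟩ := P'.tn _ P'.pt.hb
    rw [rr, rr, g2] at l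
    rw [eX] at hx
    have := D.px.hi x hx
    rwa [D.px.inj x hx _ D.px.hb (by omega)] at a
  have iX : ∀ x ∈ s.d.X, x ∉ s.d.I := fun x hx k => k (Or.inr (Or.inl hx))
  have iY : ∀ x ∈ s.d.Y, x ∉ s.d.I := fun x hx k => k (Or.inr (Or.inr hx))
  by_cases ht : s'.v ∈ s.τ
  · have e1 := (P.ty _ ht _ hq P'.vj).1
    obtain ⟨x, hx, l, a⟩ := P.tn _ ht
    rw [f2] at l
    have := D.px.lo x hx
    rw [D.px.inj x hx _ D.px.ha (by omega)] at a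
    refine hz _ vI a vb _ hq _ P.hj P'.vj (e1 ▸ P.vj) fun x hx => ?_
    rcases Sym2.mem_iff.1 hx with rfl | rfl <;> omega
  have key : ∀ k : Fin 4, k = 0 ∨ k = 1 ∨ k = 2 ∨ k = 3 := by decide
  rcases key (s.lab s'.v) with k | k | k | k
  · rcases R.n0 ⟨_, ⟨vI, ht, k⟩, vb.symm⟩ with r | (r | r) | r
    · exact iX _ D.px.hb r.1
    · have := r.2
      rw [f2] at this
      omega
    · exact D.xy D.px.hb r.1
    · exact iX _ D.px.hb (P.ti r)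
  · rcases R.n1 ⟨_, ⟨vI, ht, k⟩, P'.vj.symm⟩ with r | (r | r) | r
    · exact iY _ hq r.1
    · exact D.xy r.1 hq
    · have := r.2
      omega
    · exact iY _ hq (P.ti r)
  · rcases R.n2 ⟨_, ⟨vI, ht, k⟩, P'.vj.symm⟩ with r | r | r | r
    · exact iY _ hq r.1
    · exact D.xy P.hp (r ▸ hq)
    · exact D.xy P.hp' (r ▸ hq)
    · exact iY _ hq (r ▸ P.ti P.pt.ha)
  · rcases R.n3 ⟨_, ⟨vI, ht, k⟩, vb.symm⟩ with r | r | r | r | r
    · exact iX _ D.px.hb r.1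
    · exact D.xy D.px.hb r.1
    · exact iX _ D.px.hb (r ▸ P.ti P.pt.hb)
    · exact D.xy D.px.hb (r ▸ P.hl)
    · exact D.xy D.px.hb (r ▸ P.hj)

/-- An allowed pair in a disc without inner rungs. -/
theorem pr_nr (hP : Pl H Set.univ) (T : TA H) {d : DD W} (D : Disc H d) (hI : d.I.Nonempty)
    (N : NR H d) (ih : TPN H (d.Zᶜ).ncard) {e e' : Sym2 W} (he : e ∈ PE H d.X ∪ PE H d.Y)
    (he' : e' ∈ PE H d.X ∪ PE H d.Y) (h : Pr H d e e') : ∃ o, Out H d {e, e'} o := by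
  have onX : ∀ f ∈ PE H d.X ∪ PE H d.Y, (∀ x ∈ f, x ∈ d.X) → f ∈ PE H d.X := by
    rintro f (k | ⟨p, hp, q, -, -, rfl⟩) m
    exacts [k, absurd hp (D.xy (m p (Sym2.mem_mk_left _ _)))]
  have onY : ∀ f ∈ PE H d.X ∪ PE H d.Y, (∀ x ∈ f, x ∈ d.Y) → f ∈ PE H d.Y := by
    rintro f (⟨p, hp, q, -, -, rfl⟩ | k) m
    exacts [absurd (m p (Sym2.mem_mk_left _ _)) (D.xy hp), k]
  have ends : ∀ u ∈ d.X, ∀ u' ∈ d.X, ∀ v ∈ d.Y, ∀ v' ∈ d.Y, H.Adj u v → H.Adj u' v' →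
      d.ρ u < d.ρ u' → u = d.a ∧ v = d.a' ∧ u' = d.b ∧ v' = d.b' := by
    intro u hu u' hu' v hv v' hv' a a' l
    have h1 := D.px.lo u hu
    have h2 := D.px.hi u' hu'
    rcases N u hu v hv a with k | k
    · rcases N u' hu' v' hv' a' with k' | k'
      · rw [k'.1] at l
        omega
      · exact ⟨k.1, k.2, k'.1, k'.2⟩
    · rw [k.1] at l
      omega
  have top : ∀ f ∈ PE H d.X ∪ PE H d.Y, ∀ f' ∈ PE H d.X ∪ PE H d.Y, Top H d f f' →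
      ∃ o, Out H d {f, f'} o := by
    rintro f hf f' hf' ⟨u, hu, u', hu', v, hv, v', hv', a, a', l, rfl, k, hz⟩
    obtain ⟨rfl, -, rfl, -⟩ := ends u hu u' hu' v hv v' hv' a a' l
    have ab : H.Adj d.a d.b := by
      rcases hf with m | m
      exacts [(mem_PE.1 m).2.2, (mem_PE.1 m).2.2]
    exact k1_nr hP T D hI N ih ab (onY f' hf' fun x hx => (k x hx).1) hz
  rcases h with ⟨u, hu, u', hu', y, hy, a, a', k⟩ | h | h
  · have h1 := onX e he fun x hx => (k x (Or.inl hx)).1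
    have h2 := onX e' he' fun x hx => (k x (Or.inr hx)).1
    obtain ⟨p, -, p', -, -, l, rfl⟩ := pe_ord D.px h1
    have k1 := (k p (Or.inl (Sym2.mem_mk_left _ _))).2.1
    have k2 := (k p' (Or.inl (Sym2.mem_mk_right _ _))).2.2
    obtain ⟨-, e1, -, e2⟩ := ends u hu u' hu' y hy y hy a a' (by omega)
    exact ty_nr hP T D hI N (e1.symm.trans e2) h1 h2
  · exact top e he e' he' h
  · rw [Set.pair_comm]
    exact top e' he' e he h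

end Pool.Agent.P.MP_08fd93_co.FU
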